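import Pool.Agent.Y649.FA.Geo3

/-!
# Four cops: basic joint strategies
-/

set_option autoImplicit false

namespace Pool.Agent.Y649.FA

open Pool.Agent.Helper805.CHS

variable {V : Type} {G : SimpleGraph V}

/-- a guard of `S` against a robber moving inside `T` -/
def SG (G : SimpleGraph V) (T S : Set V) (Rel : V → V → Prop) : Prop :=
  (∀ c r r', Rel c r → r ∈ T → r' ∈ T → G.Adj r r' → ∃ c', G.Adj c c' ∧ Rel c' r') ∧
  (∀ c r r', Rel c r → r ∈ T → r' ∈ S → G.Adj r r' → c = r' ∨ G.Adj c r')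

theorem SG.mono {T T' S S' : Set V} {Rel : V → V → Prop} (h : SG G T S Rel) (hT : T' ⊆ T)
    (hS : S' ⊆ S) : SG G T' S' Rel :=
  ⟨fun c r r' hc hr hr' => h.1 c r r' hc (hT hr) (hT hr'),
    fun c r r' hc hr hr' => h.2 c r r' hc (hT hr) (hS hr')⟩

/-- robber confined by one guarded edge -/
def WinE (G : SimpleGraph V) (T : Set V) : Prop :=
  ∀ (c : Fin 4 → V) (r v w : V), r ∈ T → TConn G T → G.Adj v w → v ∉ T → w ∉ T →
    (∀ x, x ∈ Nb G T → x = v ∨ x = w) → (c 0 = v ∨ c 0 = w) → WR G 4 c r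

/-- one guarded path `p`, one path `Q` guarded by two trackers -/
structure SD (G : SimpleGraph V) (T S₁ : Set V) (Rel : V → V → Prop) (Q : ℕ → V) (n : ℕ)
    (ℓ : V → ℕ) (p : ℕ → V) (m s t : ℕ) : Prop where
  conn : TConn G T
  sg : SG G T S₁ Rel
  lev : Lev G T Q n ℓ
  QT : ∀ i, i ≤ n → Q i ∉ T
  Qinj : ∀ i j, i ≤ n → j ≤ n → Q i = Q j → i = j
  st : s < t
  tn : t ≤ n
  two : TwoPath G p m (fun k => Q (s + k)) (t - s)
  pT : ∀ i, i ≤ m → p i ∉ T
  geo : GeoT G T p m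
  S₁p : ∀ x, x ∈ S₁ → ∃ i, i ≤ m ∧ x = p i
  nb : ∀ x, x ∈ Nb G T → x ∈ S₁ ∨ ∃ j, s ≤ j ∧ j ≤ t ∧ x = Q j
  Qst : ∀ j, j ≤ n → Q j ∈ Nb G T → s ≤ j ∧ j ≤ t
  Qadj : ∃ j, j ≤ n ∧ ∃ u, u ∈ T ∧ G.Adj u (Q j)

def WinD (G : SimpleGraph V) (T : Set V) : Prop :=
  ∀ S₁ Rel Q n ℓ p m s t, SD G T S₁ Rel Q n ℓ p m s t → ∀ (c : Fin 4 → V) (r : V), r ∈ T →
    Rel (c 0) r → low Q n ℓ (c 1) r → up Q n ℓ (c 2) r → WR G 4 c r

/-- two guarded paths -/
structure SS (G : SimpleGraph V) (T A B : Set V) (RA RB : V → V → Prop) (p : ℕ → V) (m : ℕ)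
    (q : ℕ → V) (n : ℕ) : Prop where
  conn : TConn G T
  sgA : SG G T A RA
  sgB : SG G T B RB
  two : TwoPath G p m q n
  pT : ∀ i, i ≤ m → p i ∉ T
  qT : ∀ i, i ≤ n → q i ∉ T
  geoP : GeoT G T p m
  geoQ : GeoT G T q n
  nb : ∀ x, x ∈ Nb G T → x ∈ A ∨ x ∈ B
  Ap : ∀ x, x ∈ A → ∃ i, i ≤ m ∧ x = p i
  Bq : ∀ x, x ∈ B → ∃ i, i ≤ n ∧ x = q i
  two_nb : ∃ x y, x ∈ Nb G T ∧ y ∈ Nb G T ∧ x ≠ y

theorem SS.symm {T A B : Set V} {RA RB : V → V → Prop} {p q : ℕ → V} {m n : ℕ}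
    (h : SS G T A B RA RB p m q n) : SS G T B A RB RA q n p m :=
  ⟨h.conn, h.sgB, h.sgA, h.two.symm, h.qT, h.pT, h.geoQ, h.geoP, fun x hx => (h.nb x hx).symm,
    h.Bq, h.Ap, h.two_nb⟩

def WinS (G : SimpleGraph V) (T : Set V) : Prop :=
  ∀ A B RA RB p m q n, SS G T A B RA RB p m q n → ∀ (c : Fin 4 → V) (r : V), r ∈ T →
    RA (c 0) r → RB (c 1) r → WR G 4 c r

/-- Cops `2`, `3` become a lower and an upper tracker while cops `0`, `1` keep the robber
confined. -/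
theorem pair_est [Finite V] (hiso : ∀ v, ∃ w, G.Adj v w) (hconn : G.Connected) {T : Set V}
    {R0 R1 : V → V → Prop}
    (h0 : ∀ c r r', R0 c r → r ∈ T → r' ∈ T → G.Adj r r' → ∃ c', G.Adj c c' ∧ R0 c' r')
    (h1 : ∀ c r r', R1 c r → r ∈ T → r' ∈ T → G.Adj r r' → ∃ c', G.Adj c c' ∧ R1 c' r')
    (hex : ∀ c0 c1 r r', R0 c0 r → R1 c1 r → r ∈ T → r' ∉ T → G.Adj r r' →
      (c0 = r' ∨ G.Adj c0 r') ∨ (c1 = r' ∨ G.Adj c1 r'))
    {P : ℕ → V} {n : ℕ} {ℓ : V → ℕ} (hlev : Lev G T P n ℓ)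
    (hgoal : ∀ (c : Fin 4 → V) r, R0 (c 0) r → R1 (c 1) r → low P n ℓ (c 2) r →
      up P n ℓ (c 3) r → r ∈ T → (∀ j, j ≤ n → r ≠ P j) → WR G 4 c r) :
    ∀ (c : Fin 4 → V) r, R0 (c 0) r → R1 (c 1) r → r ∈ T → WR G 4 c r := by
  intro c r hc0 hc1 hr
  obtain ⟨m, hm⟩ := rlow_init hconn P n ℓ (c 2) r
  refine run hiso T (fun m => ![R0, R1, rlow G P n ℓ m, fun _ _ => True]) ?_ ?_ ?_ m c r ?_ hr
  · intro m i c r r' hc hr hr' hrr
    fin_cases i
    · exact h0 c r r' hc hr hr' hrr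
    · exact h1 c r r' hc hr hr' hrr
    · exact hlev.rlow_step hc hr hr' hrr
    · obtain ⟨c', hc'⟩ := hiso c
      exact ⟨c', hc', trivial⟩
  · intro m c r r' hc hr hr' hrr
    rcases hex (c 0) (c 1) r r' (hc 0) (hc 1) hr hr' hrr with h | h
    · exact ⟨0, h⟩
    · exact ⟨1, h⟩
  · intro c r hc hr
    have hlow : low P n ℓ (c 2) r := hlev.rlow_zero (hc 2)
    obtain ⟨m, hm⟩ := rup_init hconn P n ℓ (c 3) r
    refine run hiso T (fun m => ![R0, R1, low P n ℓ, rup G P n ℓ m]) ?_ ?_ ?_ m c r ?_ hr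
    · intro m i c r r' hc hr hr' hrr
      fin_cases i
      · exact h0 c r r' hc hr hr' hrr
      · exact h1 c r r' hc hr hr' hrr
      · exact hlev.low_step hc hr hr' hrr
      · exact hlev.rup_step hc hr hr' hrr
    · intro m c r r' hc hr hr' hrr
      rcases hex (c 0) (c 1) r r' (hc 0) (hc 1) hr hr' hrr with h | h
      · exact ⟨0, h⟩
      · exact ⟨1, h⟩
    · intro c r hc hr
      have hup : up P n ℓ (c 3) r := hlev.rup_zero (hc 3)
      refine settle hiso T {x | ∃ j, j ≤ n ∧ x = P j} ![R0, R1, low P n ℓ, up P n ℓ] ?_ ?_ ?_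
        c r ?_ hr
      · intro i c r r' hc hr hr' hrr
        fin_cases i
        · exact h0 c r r' hc hr hr' hrr
        · exact h1 c r r' hc hr hr' hrr
        · exact hlev.low_step hc hr hr' hrr
        · exact hlev.up_step hc hr hr' hrr
      · intro c r r' hc hr hr' hrr
        rcases hr' with hr' | ⟨j, hj, rfl⟩
        · rcases hex (c 0) (c 1) r r' (hc 0) (hc 1) hr hr' hrr with h | h
          · exact ⟨0, h⟩
          · exact ⟨1, h⟩
        · by_cases hle : j ≤ ℓ r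
          · exact ⟨2, hlev.low_ent (hc 2) hr hj hrr hle⟩
          · exact ⟨3, hlev.up_ent (hc 3) hr hj hrr (by omega)⟩
      · intro c r hc hr hrS
        exact hgoal c r (hc 0) (hc 1) (hc 2) (hc 3) hr fun j hj he => hrS ⟨j, hj, he⟩
      · intro i
        fin_cases i
        · exact hc 0
        · exact hc 1
        · exact hc 2
        · exact hup
    · intro i
      fin_cases i
      · exact hc 0
      · exact hc 1
      · exact hlow
      · exact hm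
  · intro i
    fin_cases i
    · exact hc0
    · exact hc1
    · exact hm
    · trivial

/-- If `T` has only one boundary vertex, a free cop takes over with a guarded edge. -/
theorem cut [Finite V] (hiso : ∀ v, ∃ w, G.Adj v w) (hconn : G.Connected) {T : Set V}
    (IHE : ∀ T', T' ⊂ T → WinE G T') (R0 R1 R2 : V → V → Prop)
    (h0 : ∀ c r r', R0 c r → r ∈ T → r' ∈ T → G.Adj r r' → ∃ c', G.Adj c c' ∧ R0 c' r')
    (h1 : ∀ c r r', R1 c r → r ∈ T → r' ∈ T → G.Adj r r' → ∃ c', G.Adj c c' ∧ R1 c' r')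
    (h2 : ∀ c r r', R2 c r → r ∈ T → r' ∈ T → G.Adj r r' → ∃ c', G.Adj c c' ∧ R2 c' r')
    (hex : ∀ c0 c1 c2 r r', R0 c0 r → R1 c1 r → R2 c2 r → r ∈ T → r' ∉ T → G.Adj r r' →
      (c0 = r' ∨ G.Adj c0 r') ∨ (c1 = r' ∨ G.Adj c1 r') ∨ (c2 = r' ∨ G.Adj c2 r'))
    {z : V} (hz : z ∈ Nb G T) (hzz : ∀ x, x ∈ Nb G T → x = z) :
    ∀ (c : Fin 4 → V) r, R0 (c 0) r → R1 (c 1) r → R2 (c 2) r → r ∈ T → WR G 4 c r := by
  obtain ⟨hzT, u, hu, huz⟩ := hz
  intro c r hc0 hc1 hc2 hr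
  let R3 : ℕ → V → V → Prop := fun m c _ => (c = z ∨ c = u) ∨ ∃ p : G.Walk c z, p.length ≤ m
  have h3 : ∀ m c r r', R3 (m + 1) c r → ∃ c', G.Adj c c' ∧ R3 m c' r' := by
    intro m c r r' hc
    rcases hc with (rfl | rfl) | ⟨p, hp⟩
    · exact ⟨u, huz.symm, Or.inl (Or.inr rfl)⟩
    · exact ⟨z, huz, Or.inl (Or.inl rfl)⟩
    · cases p with
      | nil => exact ⟨u, huz.symm, Or.inl (Or.inr rfl)⟩
      | cons hadj p' =>
        rw [SimpleGraph.Walk.length_cons] at hp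
        exact ⟨_, hadj, Or.inr ⟨p', by omega⟩⟩
  have h3z : ∀ c r, R3 0 c r → c = z ∨ c = u := by
    intro c r hc
    rcases hc with h | ⟨p, hp⟩
    · exact h
    · exact Or.inl (SimpleGraph.Walk.eq_of_length_eq_zero (Nat.le_zero.mp hp))
  obtain ⟨p⟩ := hconn.preconnected (c 3) z
  refine run hiso T (fun m => ![R0, R1, R2, R3 m]) ?_ ?_ ?_ p.length c r ?_ hr
  · intro m i c r r' hc hr hr' hrr
    fin_cases i
    · exact h0 c r r' hc hr hr' hrr
    · exact h1 c r r' hc hr hr' hrr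
    · exact h2 c r r' hc hr hr' hrr
    · exact h3 m c r r' hc
  · intro m c r r' hc hr hr' hrr
    rcases hex (c 0) (c 1) (c 2) r r' (hc 0) (hc 1) (hc 2) hr hr' hrr with h | h | h
    · exact ⟨0, h⟩
    · exact ⟨1, h⟩
    · exact ⟨2, h⟩
  · intro c r hc hr
    refine settle hiso T {u} ![R0, R1, R2, fun c _ => c = z ∨ c = u] ?_ ?_ ?_ c r ?_ hr
    · intro i c r r' hc hr hr' hrr
      fin_cases i
      · exact h0 c r r' hc hr hr' hrr
      · exact h1 c r r' hc hr hr' hrr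
      · exact h2 c r r' hc hr hr' hrr
      · rcases (show c = z ∨ c = u from hc) with rfl | rfl
        · exact ⟨u, huz.symm, Or.inr rfl⟩
        · exact ⟨z, huz, Or.inl rfl⟩
    · intro c r r' hc hr hr' hrr
      rcases hr' with hr' | hr'
      · rcases hex (c 0) (c 1) (c 2) r r' (hc 0) (hc 1) (hc 2) hr hr' hrr with h | h | h
        · exact ⟨0, h⟩
        · exact ⟨1, h⟩
        · exact ⟨2, h⟩
      · have hr'' : r' = u := hr'
        subst hr''
        refine ⟨3, ?_⟩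
        rcases (show c 3 = z ∨ c 3 = r' from hc 3) with h | h
        · right; rw [h]; exact huz.symm
        · exact Or.inl h
    · intro c r hc hr hrS
      refine WR.of_perm (Equiv.swap 0 3) ?_
      have hrT' : r ∈ T \ {u} := ⟨hr, hrS⟩
      refine IHE (Comp G (T \ {u}) r) (comp_ssub hu rfl) _ r z u (self_mem_comp hrT') comp_tconn
        huz.symm (fun h => hzT (comp_sub h).1) (fun h => (comp_sub h).2 rfl) ?_ ?_
      · intro x hx
        rcases nb_comp hx with h | ⟨h, _⟩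
        · exact Or.inl (hzz x h)
        · exact Or.inr h
      · show c (Equiv.swap 0 3 0) = z ∨ c (Equiv.swap 0 3 0) = u
        rw [Equiv.swap_apply_left]
        exact hc 3
    · intro i
      fin_cases i
      · exact hc 0
      · exact hc 1
      · exact hc 2
      · exact h3z (c 3) r (hc 3)
  · intro i
    fin_cases i
    · exact hc0
    · exact hc1
    · exact hc2
    · exact Or.inr ⟨p, le_rfl⟩

end Pool.Agent.Y649.FA
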