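import Pool.Agent.Y649.FA.Dodec

/-!
# The fully active cop number and the constant `c*`
-/

set_option autoImplicit false

namespace Pool.Agent.Y649.FA

open Pool.Agent.Helper805.CHS

/-- The fully active cop number `c'(G)`: the least number of cops with a winning strategy. -/
noncomputable def copNumber {V : Type} (G : SimpleGraph V) : ℕ := sInf {k | CopsWin G k}

/-- The smallest constant `c*` with `c'(G) ≤ c*` for every connected planar graph `G` with at
least two vertices. -/
noncomputable def cStar : ℕ :=
  sInf {m | ∀ (n : ℕ) (G : SimpleGraph (Fin n)), 2 ≤ n → G.Connected → Planar G →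
    copNumber G ≤ m}

theorem planar_four (n : ℕ) (G : SimpleGraph (Fin n)) (hn : 2 ≤ n) (hc : G.Connected)
    (hp : Planar G) : CopsWin G 4 := by
  have : Nontrivial (Fin n) := Fin.nontrivial_iff_two_le.mpr hn
  exact copsWin_four hc hp.no_k33

theorem planar_le_four (n : ℕ) (G : SimpleGraph (Fin n)) (hn : 2 ≤ n) (hc : G.Connected)
    (hp : Planar G) : copNumber G ≤ 4 := Nat.sInf_le (planar_four n G hn hc hp)

theorem cStar_le_four : cStar ≤ 4 := Nat.sInf_le planar_le_four

theorem three_le_dodec : 3 ≤ copNumber dodec := by
  refine le_csInf ⟨4, planar_four 20 dodec (by norm_num) dodec_conn dodec_planar⟩ ?_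
  intro k hk
  by_contra hcon
  exact dodec_not_win (by omega) hk

theorem three_le_cStar : 3 ≤ cStar := by
  refine le_csInf ⟨4, planar_le_four⟩ ?_
  intro m hm
  exact three_le_dodec.trans (hm 20 dodec (by norm_num) dodec_conn dodec_planar)

end Pool.Agent.Y649.FA
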