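import Pool.Agent.Y649.FA.Track

/-!
# Walks through a territory and canonical level functions
-/

set_option autoImplicit false

namespace Pool.Agent.Y649.FA

variable {V : Type} {G : SimpleGraph V}

/-- concatenation of two functions at index `L` -/
def cat (w : ℕ → V) (L : ℕ) (w' : ℕ → V) : ℕ → V := fun k => if k ≤ L then w k else w' (k - L)

theorem cat_le {w w' : ℕ → V} {L k : ℕ} (h : k ≤ L) : cat w L w' k = w k := by simp [cat, h]

theorem cat_gt {w w' : ℕ → V} {L k : ℕ} (h : L < k) : cat w L w' k = w' (k - L) := by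
  simp [cat, not_le.mpr h]

theorem cat_ge {w w' : ℕ → V} {L k : ℕ} (hj : w L = w' 0) (h : L ≤ k) :
    cat w L w' k = w' (k - L) := by
  rcases h.eq_or_lt with rfl | h
  · rw [cat_le le_rfl, hj]; simp
  · exact cat_gt h

theorem Wk.cat {T : Set V} {L L' : ℕ} {w w' : ℕ → V} (h : Wk G T L w) (h' : Wk G T L' w')
    (hj : w L = w' 0) (hmid : w L ∈ T ∨ L = 0 ∨ L' = 0) : Wk G T (L + L') (cat w L w') := by
  constructor
  · intro k hk
    by_cases h1 : k + 1 ≤ L
    · rw [cat_le h1, cat_le (by omega)]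
      exact h.1 k (by omega)
    · rw [cat_ge hj (by omega), cat_ge hj (by omega)]
      have := h'.1 (k - L) (by omega)
      rwa [show k - L + 1 = k + 1 - L by omega] at this
  · intro k hk0 hk
    rcases Nat.lt_trichotomy k L with h1 | rfl | h1
    · rw [cat_le h1.le]
      exact h.2 k hk0 h1
    · rw [cat_le le_rfl]
      rcases hmid with h2 | h2 | h2
      · exact h2
      · omega
      · omega
    · rw [cat_gt h1]
      exact h'.2 _ (by omega) (by omega)

theorem Wk.pre {T : Set V} {L L' : ℕ} {w : ℕ → V} (h : Wk G T L w) (hL : L' ≤ L) :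
    Wk G T L' w :=
  ⟨fun k hk => h.1 k (by omega), fun k h0 hk => h.2 k h0 (by omega)⟩

theorem Wk.suf {T : Set V} {L k : ℕ} {w : ℕ → V} (h : Wk G T L w) (hk : k ≤ L) :
    Wk G T (L - k) (fun j => w (k + j)) :=
  ⟨fun j hj => h.1 (k + j) (by omega), fun j h0 hj => h.2 (k + j) (by omega) (by omega)⟩

theorem Wk.mono {T T' : Set V} {L : ℕ} {w : ℕ → V} (h : Wk G T L w) (hT : T ⊆ T') :
    Wk G T' L w :=
  ⟨h.1, fun k h0 hk => hT (h.2 k h0 hk)⟩

/-- a single edge as a walk -/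
theorem wk_one {T : Set V} {a b : V} (h : G.Adj a b) :
    Wk G T 1 (fun k => if k = 0 then a else b) := by
  constructor
  · intro k hk
    have : k = 0 := by omega
    subst this
    simpa using h
  · intro k h0 hk; omega

/-- extension by an edge -/
theorem Wk.snoc {T : Set V} {L : ℕ} {w : ℕ → V} (h : Wk G T L w) {v : V} (hadj : G.Adj (w L) v)
    (hL : w L ∈ T ∨ L = 0) : ∃ w', Wk G T (L + 1) w' ∧ w' 0 = w 0 ∧ w' (L + 1) = v ∧
      ∀ k, k ≤ L → w' k = w k := by
  refine ⟨FA.cat w L (fun k => if k = 0 then w L else v), ?_, ?_, ?_, ?_⟩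
  · exact h.cat (wk_one hadj) (by simp) (by tauto)
  · exact cat_le (Nat.zero_le _)
  · rw [cat_gt (by omega)]; simp
  · intro k hk; exact cat_le hk

/-- distances along `P` cannot be shortened through `T` -/
def GeoT (G : SimpleGraph V) (T : Set V) (P : ℕ → V) (n : ℕ) : Prop :=
  ∀ i j, i ≤ n → j ≤ n → ∀ L w, Wk G T L w → w 0 = P i → w L = P j →
    (2 ≤ L ∨ (1 ≤ L ∧ (P i ∈ T ∨ P j ∈ T))) → j ≤ i + L

theorem GeoT.mono {T T' : Set V} {P : ℕ → V} {n : ℕ} (h : GeoT G T P n) (hT : T' ⊆ T) :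
    GeoT G T' P n := by
  intro i j hi hj L w hw h0 hL hc
  refine h i j hi hj L w (hw.mono hT) h0 hL ?_
  rcases hc with hc | ⟨h1, h2⟩
  · exact Or.inl hc
  · exact Or.inr ⟨h1, h2.imp (fun h => hT h) (fun h => hT h)⟩

theorem GeoT.sub {T : Set V} {P : ℕ → V} {n : ℕ} (h : GeoT G T P n) {a b : ℕ} (hab : a + b ≤ n) :
    GeoT G T (fun k => P (a + k)) b := by
  intro i j hi hj L w hw h0 hL hc
  have := h (a + i) (a + j) (by omega) (by omega) L w hw h0 hL hc
  omega

/-- Existence of the canonical level function. -/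
theorem exists_lev {T : Set V} {P : ℕ → V} {n : ℕ} (hn : 1 ≤ n)
    (hadj : ∀ i, i < n → G.Adj (P i) (P (i + 1)))
    (hinj : ∀ i j, i ≤ n → j ≤ n → P i = P j → i = j)
    (hgeo : GeoT G T P n) (h0 : P 0 ∉ T)
    (hreach : ∀ u, u ∈ T → ∃ i, i ≤ n ∧ ∃ L w, Wk G T L w ∧ w 0 = P i ∧ w L = u) :
    ∃ ℓ : V → ℕ, Lev G T P n ℓ ∧
      (∀ u, u ∈ T → ∃ i, i ≤ n ∧ ∃ L w, Wk G T L w ∧ w 0 = P i ∧ w L = u ∧ i + L = ℓ u) ∧
      (∀ i, i ≤ n → ∀ L w, Wk G T L w → w 0 = P i → w L ∈ T → ℓ (w L) ≤ i + L) := by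
  classical
  let D : V → ℕ → Prop := fun u x => ∃ i, i ≤ n ∧ ∃ L w, Wk G T L w ∧ w 0 = P i ∧ w L = u ∧ i + L = x
  have hex : ∀ u, u ∈ T → ∃ x, D u x := by
    intro u hu
    obtain ⟨i, hi, L, w, h1, h2, h3⟩ := hreach u hu
    exact ⟨i + L, i, hi, L, w, h1, h2, h3, rfl⟩
  let ℓ : V → ℕ := fun u => sInf {x | D u x}
  have hreal : ∀ u, u ∈ T → D u (ℓ u) := fun u hu => Nat.sInf_mem (hex u hu)
  have hle : ∀ i, i ≤ n → ∀ L w, Wk G T L w → w 0 = P i → w L ∈ T → ℓ (w L) ≤ i + L := by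
    intro i hi L w hw h0' _
    exact Nat.sInf_le ⟨i, hi, L, w, hw, h0', rfl, rfl⟩
  refine ⟨ℓ, ⟨hn, hadj, ?_, ?_, ?_, ?_, ?_⟩, hreal, hle⟩
  · intro u hu
    obtain ⟨i, hi, L, w, hw, h1, h2, h3⟩ := hreal u hu
    by_contra hcon
    have : i = 0 ∧ L = 0 := by omega
    obtain ⟨rfl, rfl⟩ := this
    rw [← h1, h2] at h0
    exact h0 hu
  · intro u v hu hv huv
    obtain ⟨i, hi, L, w, hw, h1, h2, h3⟩ := hreal u hu
    obtain ⟨w', h4, h5, h6, -⟩ := hw.snoc (v := v) (by rwa [h2]) (Or.inl (by rwa [h2]))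
    have := hle i hi (L + 1) w' h4 (h5.trans h1) (by rwa [h6])
    rw [h6] at this
    omega
  · intro u hu j hj huj
    have := hle j hj 1 _ (wk_one (T := T) huj.symm) (by simp) (by simpa using hu)
    simpa using this
  · intro u hu j hj huj
    obtain ⟨i, hi, L, w, hw, h1, h2, h3⟩ := hreal u hu
    obtain ⟨w', h4, h5, h6, -⟩ := hw.snoc (v := P j) (by rwa [h2]) (Or.inl (by rwa [h2]))
    have := hgeo i j hi hj (L + 1) w' h4 (h5.trans h1) h6 (by
      by_cases hL : L = 0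
      · right
        refine ⟨by omega, Or.inl ?_⟩
        subst hL
        rw [← h1, h2]
        exact hu
      · left; omega)
    omega
  · intro j hj hPj
    obtain ⟨i, hi, L, w, hw, h1, h2, h3⟩ := hreal (P j) hPj
    have h4 : ℓ (P j) ≤ j + 0 := hle j hj 0 (fun _ => P j) ⟨fun k hk => by omega, fun k h0 hk => by omega⟩ rfl hPj
    have h5 : j ≤ i + L := by
      by_cases hL : L = 0
      · subst hL
        have := hinj i j hi hj (h1.symm.trans h2)
        omega
      · exact hgeo i j hi hj L w hw h1 h2 (Or.inr ⟨by omega, Or.inr hPj⟩)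

    omega

/-- any level function is at most the canonical one -/
theorem Lev.le_walk {T : Set V} {P : ℕ → V} {n : ℕ} {ℓ : V → ℕ} (h : Lev G T P n ℓ) :
    ∀ L (w : ℕ → V), Wk G T L w → ∀ i, i ≤ n → w 0 = P i → w L ∈ T → ℓ (w L) ≤ i + L := by
  intro L
  induction L with
  | zero =>
    intro w _ i hi h0 hT
    rw [h0] at hT ⊢
    rw [h.self i hi hT]
    omega
  | succ L ih =>
    intro w hw i hi h0 hT
    by_cases hL : L = 0
    · subst hL
      have := hw.1 0 (by omega)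
      rw [h0] at this
      exact h.ent1 _ hT i hi this.symm
    · have h1 : w L ∈ T := hw.2 L (by omega) (by omega)
      have h2 := ih w (hw.pre (by omega)) i hi h0 h1
      have h3 := h.lip _ _ h1 hT (hw.1 L (by omega))
      omega

theorem Lev.geo {T : Set V} {P : ℕ → V} {n : ℕ} {ℓ : V → ℕ} (h : Lev G T P n ℓ)
    (hPT : ∀ i, i ≤ n → P i ∉ T) : GeoT G T P n := by
  intro i j hi hj L w hw h0 hL hc
  rcases hc with hc | ⟨_, hc | hc⟩
  · have h1 : w (L - 1) ∈ T := hw.2 _ (by omega) (by omega)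
    have h2 := h.le_walk (L - 1) w (hw.pre (by omega)) i hi h0 h1
    have h3 := hw.1 (L - 1) (by omega)
    rw [show L - 1 + 1 = L by omega, hL] at h3
    have := h.ent2 _ h1 j hj h3
    omega
  · exact absurd hc (hPT i hi)
  · exact absurd hc (hPT j hj)

end Pool.Agent.Y649.FA
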