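import Pool.Agent.Y649.FA.Planar

/-!
# The dodecahedron needs three fully active cops
-/

set_option autoImplicit false

namespace Pool.Agent.Y649.FA

/-- the three neighbours of each vertex of the dodecahedron -/
def dnb : Fin 20 → Fin 3 → Fin 20 :=
  ![![1, 9, 10], ![0, 2, 11], ![1, 3, 12], ![2, 4, 13], ![3, 5, 14], ![4, 6, 15], ![5, 7, 16],
    ![6, 8, 17], ![7, 9, 18], ![0, 8, 19], ![0, 12, 18], ![1, 13, 19], ![2, 10, 14],
    ![3, 11, 15], ![4, 12, 16], ![5, 13, 17], ![6, 14, 18], ![7, 15, 19], ![8, 10, 16],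
    ![9, 11, 17]]

/-- the graph of the dodecahedron -/
def dodec : SimpleGraph (Fin 20) where
  Adj u v := ∃ i, dnb u i = v
  symm := ⟨by
    rintro u v ⟨i, rfl⟩
    revert u i
    decide⟩
  loopless := ⟨by
    rintro u ⟨i, hi⟩
    revert u i
    decide⟩

theorem dodec_adj {u v : Fin 20} : dodec.Adj u v ↔ ∃ i, dnb u i = v := Iff.rfl

/-- integer coordinates of a straight-line plane drawing -/
def dq : Fin 20 → ℤ × ℤ :=
  ![(7, 1), (6, 6), (2, 7), (-3, 8), (-6, 4), (-8, -1), (-6, -5), (-2, -8), (3, -7), (7, -4),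
    (11, 1), (3, 3), (2, 11), (-2, 4), (-10, 6), (-4, 0), (-8, -7), (-1, -4), (4, -10), (4, -2)]

theorem dodec_planar : Planar dodec := by
  refine planar_of_int dodec dq (by decide +kernel) ?_ ?_
  · rintro u v z ⟨i, rfl⟩
    revert u i z
    decide +kernel
  · rintro u v w x ⟨i, rfl⟩ ⟨j, rfl⟩
    revert u i w j
    decide +kernel

/-- a spanning tree -/
def dpar : Fin 20 → Fin 20 :=
  ![0, 0, 1, 2, 3, 4, 7, 8, 9, 0, 0, 1, 10, 11, 12, 13, 18, 19, 10, 9]

/-- depth in the spanning tree -/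
def ddep : Fin 20 → ℕ := ![0, 1, 2, 3, 4, 5, 4, 3, 2, 1, 1, 2, 2, 3, 3, 4, 3, 3, 2, 2]

theorem dodec_conn : dodec.Connected := by
  have h1 : ∀ v : Fin 20, v = 0 ∨ (∃ i, dnb v i = dpar v) ∧ ddep (dpar v) < ddep v := by
    decide +kernel
  have key : ∀ n (v : Fin 20), ddep v ≤ n → dodec.Reachable v 0 := by
    intro n
    induction n with
    | zero =>
      intro v hv
      rcases h1 v with rfl | ⟨_, h⟩
      · exact SimpleGraph.Reachable.refl _
      · omega
    | succ n ih =>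
      intro v hv
      rcases h1 v with rfl | ⟨h, h2⟩
      · exact SimpleGraph.Reachable.refl _
      · have hadj : dodec.Adj v (dpar v) := h
        exact hadj.reachable.trans (ih _ (by omega))
  exact { preconnected := fun u v => (key _ u le_rfl).trans (key _ v le_rfl).symm
          nonempty := ⟨0⟩ }

theorem dbad : ∀ r c : Fin 20, c ≠ r → ∀ j j' : Fin 3, j ≠ j' →
    ¬ ((c = dnb r j ∨ ∃ i, dnb c i = dnb r j) ∧ (c = dnb r j' ∨ ∃ i, dnb c i = dnb r j')) := by
  decide +kernel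

theorem dfar : ∀ c : Fin 20, ∀ j j' : Fin 3, j ≠ j' →
    ¬ ((c = (![0, 3, 6] : Fin 3 → Fin 20) j ∨ ∃ i, dnb c i = (![0, 3, 6] : Fin 3 → Fin 20) j) ∧
      (c = (![0, 3, 6] : Fin 3 → Fin 20) j' ∨
        ∃ i, dnb c i = (![0, 3, 6] : Fin 3 → Fin 20) j')) := by
  decide +kernel

theorem pigeon {k : ℕ} (hk : k ≤ 2) (bad : Fin k → Fin 3 → Prop)
    (h : ∀ i j j', j ≠ j' → ¬ (bad i j ∧ bad i j')) : ∃ j, ∀ i, ¬ bad i j := by
  by_contra hcon
  push Not at hcon
  choose f hf using hcon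
  have : ¬ Function.Injective f := by
    intro hinj
    have := Fintype.card_le_of_injective f hinj
    simp at this
    omega
  rw [Function.Injective] at this
  push Not at this
  obtain ⟨j, j', he, hne⟩ := this
  exact h (f j) j j' hne ⟨hf j, he ▸ hf j'⟩

theorem dodec_evade {k : ℕ} (hk : k ≤ 2) : ∀ n (c : Fin k → Fin 20) (r : Fin 20),
    (∀ i, c i ≠ r ∧ ¬ dodec.Adj (c i) r) → ¬ WinIn dodec k n c r := by
  intro n
  induction n with
  | zero =>
    rintro c r h ⟨i, hi⟩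
    exact (h i).1 hi
  | succ n ih =>
    rintro c r h (⟨i, hi⟩ | ⟨c', hc, h2⟩)
    · exact (h i).1 hi
    · have hne : ∀ i, c' i ≠ r := fun i hi => (h i).2 (hi ▸ hc i)
      rcases h2 with ⟨i, hi⟩ | h2
      · exact hne i hi
      · obtain ⟨j, hj⟩ := pigeon hk
          (fun i j => c' i = dnb r j ∨ ∃ l, dnb (c' i) l = dnb r j)
          (fun i j j' hjj => dbad r (c' i) (hne i) j j' hjj)
        refine ih c' (dnb r j) (fun i => ?_) (h2 _ ⟨j, rfl⟩)
        have := hj i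
        push Not at this
        exact ⟨this.1, fun ⟨l, hl⟩ => this.2 l hl⟩

theorem dodec_not_win {k : ℕ} (hk : k ≤ 2) : ¬ CopsWin dodec k := by
  rintro ⟨c, hc⟩
  obtain ⟨j, hj⟩ := pigeon hk
    (fun i j => c i = (![0, 3, 6] : Fin 3 → Fin 20) j ∨
      ∃ l, dnb (c i) l = (![0, 3, 6] : Fin 3 → Fin 20) j)
    (fun i j j' hjj => dfar (c i) j j' hjj)
  obtain ⟨n, hn⟩ := hc ((![0, 3, 6] : Fin 3 → Fin 20) j)
  refine dodec_evade hk n c _ (fun i => ?_) hn
  have := hj i
  push Not at this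
  exact ⟨this.1, fun ⟨l, hl⟩ => this.2 l hl⟩

end Pool.Agent.Y649.FA
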