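import Mathlib

/-!
# Fully active cops and robber: rules and elementary facts
-/

set_option autoImplicit false

namespace Pool.Agent.Y649.FA

/-- The cops (at `c`) are to move, the robber is at `r`: the cops can force within `n` rounds that
some cop is at the robber's vertex. In a round first every cop moves to an adjacent vertex, then
the robber moves to an adjacent vertex. -/
def WinIn {V : Type} (G : SimpleGraph V) (k : ℕ) : ℕ → (Fin k → V) → V → Prop
  | 0, c, r => ∃ i, c i = r
  | n + 1, c, r => (∃ i, c i = r) ∨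
      ∃ c' : Fin k → V, (∀ i, G.Adj (c i) (c' i)) ∧
        ((∃ i, c' i = r) ∨ ∀ r', G.Adj r r' → WinIn G k n c' r')

/-- `k` cops have a winning strategy in fully active Cops and Robbers on `G`: they can choose
starting vertices so that for every starting vertex of the robber they can force a capture. -/
def CopsWin {V : Type} (G : SimpleGraph V) (k : ℕ) : Prop :=
  ∃ c : Fin k → V, ∀ r, ∃ n, WinIn G k n c r

section

variable {V : Type} {G : SimpleGraph V} {k : ℕ}

theorem WinIn.succ {n : ℕ} : ∀ {c : Fin k → V} {r : V}, WinIn G k n c r →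
    WinIn G k (n + 1) c r := by
  induction n with
  | zero => intro c r h; exact Or.inl h
  | succ n ih =>
    intro c r h
    rcases h with h | ⟨c', hc, h⟩
    · exact Or.inl h
    · refine Or.inr ⟨c', hc, ?_⟩
      rcases h with h | h
      · exact Or.inl h
      · exact Or.inr fun r' hr => ih (h r' hr)

theorem WinIn.mono {n m : ℕ} (hnm : n ≤ m) {c : Fin k → V} {r : V} (h : WinIn G k n c r) :
    WinIn G k m c r := by
  induction m, hnm using Nat.le_induction with
  | base => exact h
  | succ m _ ih => exact ih.succ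

/-- cops to move -/
def W (G : SimpleGraph V) (k : ℕ) (c : Fin k → V) (r : V) : Prop := ∃ n, WinIn G k n c r

/-- robber to move -/
def WR (G : SimpleGraph V) (k : ℕ) (c : Fin k → V) (r : V) : Prop :=
  (∃ i, c i = r) ∨ ∀ r', G.Adj r r' → W G k c r'

theorem W.caught {c : Fin k → V} {r : V} (h : ∃ i, c i = r) : W G k c r := ⟨0, h⟩

theorem W.of_move [Finite V] {c c' : Fin k → V} {r : V} (hc : ∀ i, G.Adj (c i) (c' i))
    (h : WR G k c' r) : W G k c r := by
  rcases h with h | h
  · exact ⟨1, Or.inr ⟨c', hc, Or.inl h⟩⟩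
  · have : ∃ N, ∀ r', G.Adj r r' → WinIn G k N c' r' := by
      classical
      have key : ∀ r', ∃ n, G.Adj r r' → WinIn G k n c' r' := by
        intro r'
        by_cases hr : G.Adj r r'
        · obtain ⟨n, hn⟩ := h r' hr
          exact ⟨n, fun _ => hn⟩
        · exact ⟨0, fun h => absurd h hr⟩
      choose f hf using key
      have := Fintype.ofFinite V
      exact ⟨Finset.univ.sup f, fun r' hr =>
        (hf r' hr).mono (Finset.le_sup (f := f) (Finset.mem_univ r'))⟩
    obtain ⟨N, hN⟩ := this
    exact ⟨N + 1, Or.inr ⟨c', hc, Or.inr hN⟩⟩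

theorem WR.of_step [Finite V] {c : Fin k → V} {r : V}
    (h : ∀ r', G.Adj r r' → (∃ i, c i = r') ∨
      ∃ c' : Fin k → V, (∀ i, G.Adj (c i) (c' i)) ∧ WR G k c' r') : WR G k c r := by
  refine Or.inr fun r' hr => ?_
  rcases h r' hr with h | ⟨c', hc, h⟩
  · exact W.caught h
  · exact W.of_move hc h

/-- permuting the cops -/
theorem WinIn.perm (e : Equiv.Perm (Fin k)) {n : ℕ} : ∀ {c : Fin k → V} {r : V},
    WinIn G k n c r → WinIn G k n (c ∘ e) r := by
  induction n with
  | zero =>
    rintro c r ⟨i, hi⟩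
    exact ⟨e.symm i, by simp [hi]⟩
  | succ n ih =>
    intro c r h
    rcases h with ⟨i, hi⟩ | ⟨c', hc, h⟩
    · exact Or.inl ⟨e.symm i, by simp [hi]⟩
    · refine Or.inr ⟨c' ∘ e, fun i => hc (e i), ?_⟩
      rcases h with ⟨i, hi⟩ | h
      · exact Or.inl ⟨e.symm i, by simp [hi]⟩
      · exact Or.inr fun r' hr => ih (h r' hr)

theorem W.perm (e : Equiv.Perm (Fin k)) {c : Fin k → V} {r : V} (h : W G k c r) :
    W G k (c ∘ e) r := by
  obtain ⟨n, hn⟩ := h
  exact ⟨n, hn.perm e⟩

theorem WR.perm (e : Equiv.Perm (Fin k)) {c : Fin k → V} {r : V} (h : WR G k c r) :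
    WR G k (c ∘ e) r := by
  rcases h with ⟨i, hi⟩ | h
  · exact Or.inl ⟨e.symm i, by simp [hi]⟩
  · exact Or.inr fun r' hr => (h r' hr).perm e

theorem WR.of_perm (e : Equiv.Perm (Fin k)) {c : Fin k → V} {r : V} (h : WR G k (c ∘ e) r) :
    WR G k c r := by
  have := h.perm e.symm
  have h2 : (c ∘ e) ∘ e.symm = c := by
    funext i; simp
  rwa [h2] at this

/-- A general lemma for joint strategies. Each cop `i` keeps a relation `Rel m i` to the robber
with rank `m` decreasing, as long as the robber stays in `T`; leaving `T` is punished at once. -/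
theorem run [Finite V] (hiso : ∀ v, ∃ w, G.Adj v w) (T : Set V)
    (Rel : ℕ → Fin k → V → V → Prop)
    (hstep : ∀ m i c r r', Rel (m + 1) i c r → r ∈ T → r' ∈ T → G.Adj r r' →
      ∃ c', G.Adj c c' ∧ Rel m i c' r')
    (hexit : ∀ m (c : Fin k → V) r r', (∀ i, Rel (m + 1) i (c i) r) → r ∈ T → r' ∉ T →
      G.Adj r r' → ∃ i, c i = r' ∨ G.Adj (c i) r')
    (hgoal : ∀ (c : Fin k → V) r, (∀ i, Rel 0 i (c i) r) → r ∈ T → WR G k c r) :
    ∀ m (c : Fin k → V) r, (∀ i, Rel m i (c i) r) → r ∈ T → WR G k c r := by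
  intro m
  induction m with
  | zero => exact hgoal
  | succ m ih =>
    intro c r hc hr
    refine WR.of_step fun r' hrr => ?_
    by_cases hr' : r' ∈ T
    · have := fun i => hstep m i (c i) r r' (hc i) hr hr' hrr
      choose c' hc' hrel using this
      exact Or.inr ⟨c', hc', ih c' r' hrel hr'⟩
    · obtain ⟨i, hi⟩ := hexit m c r r' hc hr hr' hrr
      rcases hi with hi | hi
      · exact Or.inl ⟨i, hi⟩
      · right
        choose f hf using hiso
        classical
        refine ⟨fun j => if j = i then r' else f (c j), ?_, Or.inl ⟨i, by simp⟩⟩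
        intro j
        by_cases hj : j = i
        · subst hj; simpa using hi
        · simpa [hj] using hf (c j)

/-- If all relations persist forever, the robber may be assumed to be outside a set `S ⊆ T`
whose vertices he cannot enter without being caught. -/
theorem settle [Finite V] (hiso : ∀ v, ∃ w, G.Adj v w) (T S : Set V)
    (Rel : Fin k → V → V → Prop)
    (hstep : ∀ i c r r', Rel i c r → r ∈ T → r' ∈ T → G.Adj r r' →
      ∃ c', G.Adj c c' ∧ Rel i c' r')
    (hexit : ∀ (c : Fin k → V) r r', (∀ i, Rel i (c i) r) → r ∈ T → (r' ∉ T ∨ r' ∈ S) →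
      G.Adj r r' → ∃ i, c i = r' ∨ G.Adj (c i) r')
    (hgoal : ∀ (c : Fin k → V) r, (∀ i, Rel i (c i) r) → r ∈ T → r ∉ S → WR G k c r)
    (c : Fin k → V) (r : V) (hc : ∀ i, Rel i (c i) r) (hr : r ∈ T) : WR G k c r := by
  by_cases hS : r ∈ S
  · refine WR.of_step fun r' hrr => ?_
    by_cases hr' : r' ∈ T ∧ r' ∉ S
    · have := fun i => hstep i (c i) r r' (hc i) hr hr'.1 hrr
      choose c' hc' hrel using this
      exact Or.inr ⟨c', hc', hgoal c' r' hrel hr'.1 hr'.2⟩
    · have h2 : r' ∉ T ∨ r' ∈ S := by tauto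
      obtain ⟨i, hi⟩ := hexit c r r' hc hr h2 hrr
      rcases hi with hi | hi
      · exact Or.inl ⟨i, hi⟩
      · right
        choose f hf using hiso
        classical
        refine ⟨fun j => if j = i then r' else f (c j), ?_, Or.inl ⟨i, by simp⟩⟩
        intro j
        by_cases hj : j = i
        · subst hj; simpa using hi
        · simpa [hj] using hf (c j)
  · exact hgoal c r hc hr hS

end

end Pool.Agent.Y649.FA
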