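import Pool.Agent.Y649.FA.Splice

/-!
# Minimal chord paths; components
-/

set_option autoImplicit false

namespace Pool.Agent.Y649.FA

variable {V : Type} {G : SimpleGraph V}

theorem geo_cat3 {T : Set V} {α β w : ℕ → V} {u L v s : ℕ} (h1 : α u = w 0) (h2 : w L = β v)
    (hw : Wk G T L w)
    (hαT : ∀ i, i ≤ u → α i ∉ T) (hβT : ∀ i, i ≤ s → β (v + i) ∉ T)
    (hGα : ∀ i j, i ≤ u → j ≤ u → ∀ L' w', Wk G T L' w' → w' 0 = α i → w' L' = α j → 2 ≤ L' →
      j ≤ i + L')
    (hGβ : ∀ i j, i ≤ s → j ≤ s → ∀ L' w', Wk G T L' w' → w' 0 = β (v + i) →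
      w' L' = β (v + j) → 2 ≤ L' → j ≤ i + L')
    (hmin : ∀ i, i ≤ u → ∀ j, j ≤ s → ∀ L' w', Wk G T L' w' → w' 0 = α i →
      w' L' = β (v + j) → 2 ≤ L' → u + L + j ≤ i + L') :
    GeoT G T (cat3 α u w L β v) (u + L + s) := by
  intro i j hi hj L' w' hw' h0 hL' hc
  by_contra hcon
  have hij : i + L' < j := not_le.mp hcon
  have hL1 : 1 ≤ L' := by rcases hc with h | h <;> omega
  -- values
  have v1 : ∀ k, k ≤ u → cat3 α u w L β v k = α k := fun k hk => cat3_1 hk
  have v2 : ∀ k, u ≤ k → k ≤ u + L → cat3 α u w L β v k = w (k - u) :=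
    fun k hk hk2 => cat3_2 h1 hk hk2
  have v3 : ∀ k, u + L ≤ k → cat3 α u w L β v k = β (v + (k - (u + L))) :=
    fun k hk => cat3_3 h1 h2 hk
  by_cases ci : i ≤ u
  · rw [v1 i ci] at h0 hc
    by_cases cj : j ≤ u
    · rw [v1 j cj] at hL' hc
      have h3 : 2 ≤ L' := by
        rcases hc with h | ⟨_, h | h⟩
        · exact h
        · exact absurd h (hαT i ci)
        · exact absurd h (hαT j cj)
      have := hGα i j ci cj L' w' hw' h0 hL' h3
      omega
    · by_cases cj2 : j < u + L
      · rw [v2 j (by omega) cj2.le] at hL'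
        have hjT : w (j - u) ∈ T := hw.2 _ (by omega) (by omega)
        have h3 := hw'.cat (hw.suf (k := j - u) (by omega)) (by simpa using hL')
          (Or.inl (by rw [hL']; exact hjT))
        have := hmin i ci 0 (Nat.zero_le _) _ _ h3 (by rw [cat_le (Nat.zero_le _), h0]) (by
          rw [cat_ge (by simpa using hL') (by omega)]
          show w (j - u + (L' + (L - (j - u)) - L')) = β (v + 0)
          rw [show j - u + (L' + (L - (j - u)) - L') = L by omega, h2]; simp) (by omega)
        omega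
      · rw [v3 j (by omega)] at hL' hc
        have h3 : 2 ≤ L' := by
          rcases hc with h | ⟨_, h | h⟩
          · exact h
          · exact absurd h (hαT i ci)
          · exact absurd h (hβT _ (by omega))
        have := hmin i ci (j - (u + L)) (by omega) L' w' hw' h0 hL' h3
        omega
  · by_cases ci2 : i < u + L
    · rw [v2 i (by omega) ci2.le] at h0
      have hiT : w (i - u) ∈ T := hw.2 _ (by omega) (by omega)
      have h3 := (hw.pre (L' := i - u) (by omega)).cat hw' h0.symm (Or.inl hiT)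
      by_cases cj2 : j < u + L
      · rw [v2 j (by omega) cj2.le] at hL'
        have hjT : w (j - u) ∈ T := hw.2 _ (by omega) (by omega)
        have e1 : cat w (i - u) w' (i - u + L') = w (j - u) := by
          rw [cat_ge h0.symm (by omega), ← hL']; congr 1; omega
        have h4 := h3.cat (hw.suf (k := j - u) (by omega)) (by simpa using e1)
          (Or.inl (by rw [e1]; exact hjT))
        have := hmin u le_rfl 0 (Nat.zero_le _) _ _ h4
          (by rw [cat_le (Nat.zero_le _), cat_le (Nat.zero_le _), h1]) (by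
          rw [cat_ge (by simpa using e1) (by omega)]
          show w (j - u + (i - u + L' + (L - (j - u)) - (i - u + L'))) = β (v + 0)
          rw [show j - u + (i - u + L' + (L - (j - u)) - (i - u + L')) = L by omega, h2]; simp)
          (by omega)
        omega
      · rw [v3 j (by omega)] at hL'
        have := hmin u le_rfl (j - (u + L)) (by omega) _ _ h3
          (by rw [cat_le (Nat.zero_le _), h1]) (by
            rw [cat_ge h0.symm (by omega), ← hL']; congr 1; omega) (by omega)
        omega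
    · rw [v3 i (by omega)] at h0 hc
      rw [v3 j (by omega)] at hL' hc
      have h3 : 2 ≤ L' := by
        rcases hc with h | ⟨_, h | h⟩
        · exact h
        · exact absurd h (hβT _ (by omega))
        · exact absurd h (hβT _ (by omega))
      have := hGβ (i - (u + L)) (j - (u + L)) (by omega) (by omega) L' w' hw' h0 hL' h3
      omega

theorem min_inj {T : Set V} {w : ℕ → V} {L : ℕ} (hL : 2 ≤ L) (hw : Wk G T L w)
    (h0 : w 0 ∉ T) (h1 : w L ∉ T) (hne : w 0 ≠ w L)
    (hmin : ∀ L' w', Wk G T L' w' → w' 0 = w 0 → w' L' = w L → 2 ≤ L' → L ≤ L') :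
    ∀ i j, i ≤ L → j ≤ L → w i = w j → i = j := by
  have key : ∀ i j, i < j → j ≤ L → w i ≠ w j := by
    intro i j hij hj he
    by_cases ci : i = 0
    · subst ci
      by_cases cj : j = L
      · subst cj; exact hne he
      · exact h0 (he ▸ hw.2 j (by omega) (by omega))
    · by_cases cj : j = L
      · subst cj; exact h1 (he ▸ hw.2 i (by omega) (by omega))
      · have h3 := (hw.pre (L' := i) (by omega)).cat (hw.suf (k := j) hj) (by simpa using he)
          (Or.inl (hw.2 i (by omega) (by omega)))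
        have := hmin _ _ h3 (cat_le (Nat.zero_le _)) (by
          rw [cat_ge (by simpa using he) (by omega)]
          show w (j + (i + (L - j) - i)) = w L
          congr 1; omega) (by omega)
        omega
  intro i j hi hj he
  rcases Nat.lt_trichotomy i j with h | h | h
  · exact absurd he (key i j h hj)
  · exact h
  · exact absurd he.symm (key j i h hi)

/-- any two vertices of `T` are joined by a walk in `T` -/
def TConn (G : SimpleGraph V) (T : Set V) : Prop :=
  ∀ x, x ∈ T → ∀ y, y ∈ T → ∃ L w, Wk G T L w ∧ w 0 = x ∧ w L = y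

/-- the component of `r` in `T` -/
def Comp (G : SimpleGraph V) (T : Set V) (r : V) : Set V :=
  {x | ∃ (L : ℕ) (w : ℕ → V), w 0 = r ∧ w L = x ∧ (∀ k, k < L → G.Adj (w k) (w (k + 1))) ∧
    ∀ k, k ≤ L → w k ∈ T}

theorem self_mem_comp {T : Set V} {r : V} (hr : r ∈ T) : r ∈ Comp G T r :=
  ⟨0, fun _ => r, rfl, rfl, fun k hk => by omega, fun _ _ => hr⟩

theorem comp_sub {T : Set V} {r : V} : Comp G T r ⊆ T := by
  rintro x ⟨L, w, h0, rfl, hadj, hmem⟩
  exact hmem L le_rfl

theorem comp_closed {T : Set V} {r x y : V} (hx : x ∈ Comp G T r) (hxy : G.Adj x y)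
    (hy : y ∈ T) : y ∈ Comp G T r := by
  obtain ⟨L, w, h0, rfl, hadj, hmem⟩ := hx
  refine ⟨L + 1, fun k => if k ≤ L then w k else y, by simpa using h0, by simp, ?_, ?_⟩
  · intro k hk
    by_cases h : k < L
    · simp only [show k ≤ L by omega, show k + 1 ≤ L by omega, if_true]
      exact hadj k h
    · have : k = L := by omega
      subst this
      simpa using hxy
  · intro k hk
    by_cases h : k ≤ L
    · simpa [h] using hmem k h
    · simpa [h] using hy

theorem comp_conn {T : Set V} {r : V} (hr : r ∈ T) : (G.induce (Comp G T r)).Connected := by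
  refine conn_of_star (self_mem_comp hr) ?_
  rintro x ⟨L, w, h0, hL, hadj, hmem⟩
  exact ⟨L, w, h0, hL, hadj, fun k hk => ⟨k, w, h0, rfl, fun j hj => hadj j (by omega),
    fun j hj => hmem j (by omega)⟩⟩

theorem comp_tconn {T : Set V} {r : V} : TConn G (Comp G T r) := by
  rintro x ⟨L, w, h0, hL, hadj, hmem⟩ y ⟨L', w', h0', hL', hadj', hmem'⟩
  have m1 : ∀ k, k ≤ L → w k ∈ Comp G T r := fun k hk => ⟨k, w, h0, rfl,
    fun j hj => hadj j (by omega), fun j hj => hmem j (by omega)⟩
  have m2 : ∀ k, k ≤ L' → w' k ∈ Comp G T r := fun k hk => ⟨k, w', h0', rfl,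
    fun j hj => hadj' j (by omega), fun j hj => hmem' j (by omega)⟩
  have w1 : Wk G (Comp G T r) L (fun k => w (L - k)) :=
    ⟨rev_adj hadj le_rfl, fun k _ _ => m1 _ (by omega)⟩
  have w2 : Wk G (Comp G T r) L' w' := ⟨hadj', fun k _ hk => m2 k (by omega)⟩
  have hj : (fun k => w (L - k)) L = w' 0 := by simp [h0, h0']
  refine ⟨L + L', _, w1.cat w2 hj (Or.inl ?_), ?_, ?_⟩
  · exact m1 _ (by omega)
  · rw [cat_le (Nat.zero_le _)]; simpa using hL
  · rw [cat_ge (w := fun k => w (L - k)) hj (by omega)]; simpa using hL'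

/-- boundary of `T` -/
def Nb (G : SimpleGraph V) (T : Set V) : Set V := {x | x ∉ T ∧ ∃ t, t ∈ T ∧ G.Adj t x}

theorem nb_comp {T S : Set V} {r x : V} (hx : x ∈ Nb G (Comp G (T \ S) r)) :
    x ∈ Nb G T ∨ (x ∈ S ∧ x ∈ T) := by
  obtain ⟨hx1, t, ht, hadj⟩ := hx
  have htT := (comp_sub ht).1
  by_cases hxT : x ∈ T
  · right
    refine ⟨?_, hxT⟩
    by_contra hS
    exact hx1 (comp_closed ht hadj ⟨hxT, hS⟩)
  · exact Or.inl ⟨hxT, t, htT, hadj⟩

/-- the component of `r` outside `S` has a neighbour in `S` -/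
theorem comp_adj {T S : Set V} {r s : V} (hT : TConn G T) (hr : r ∈ T) (hrS : r ∉ S)
    (hs : s ∈ T) (hsS : s ∈ S) : ∃ t, t ∈ Comp G (T \ S) r ∧ ∃ x, x ∈ S ∧ x ∈ T ∧ G.Adj t x := by
  classical
  obtain ⟨L, w, hw, h0, hL⟩ := hT r hr s hs
  have hall : ∀ k, k ≤ L → w k ∈ T := by
    intro k hk
    by_cases h1 : k = 0
    · subst h1; rwa [h0]
    · by_cases h2 : k = L
      · subst h2; rwa [hL]
      · exact hw.2 k (by omega) (by omega)
  have hex : ∃ k, k ≤ L ∧ w k ∈ S := ⟨L, le_rfl, by rwa [hL]⟩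
  have hk := Nat.find_spec hex
  set k := Nat.find hex with hkdef
  have hkmin : ∀ j, j < k → ¬ (j ≤ L ∧ w j ∈ S) := fun j hj => Nat.find_min hex hj
  have hk0 : k ≠ 0 := by
    intro h
    rw [h, h0] at hk
    exact hrS hk.2
  refine ⟨w (k - 1), ⟨k - 1, w, h0, rfl, fun j hj => hw.1 j (by omega), fun j hj =>
    ⟨hall j (by omega), fun hS => hkmin j (by omega) ⟨by omega, hS⟩⟩⟩, w k, hk.2, hall k hk.1, ?_⟩
  have := hw.1 (k - 1) (by omega)
  rwa [show k - 1 + 1 = k by omega] at this

theorem comp_ssub {T S : Set V} {r s : V} (hs : s ∈ T) (hsS : s ∈ S) :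
    Comp G (T \ S) r ⊂ T := by
  refine ⟨fun x hx => (comp_sub hx).1, fun h => ?_⟩
  exact (comp_sub (h hs)).2 hsS

end Pool.Agent.Y649.FA
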