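import Pool.Agent.Y649.FA.StepD
import Pool.Agent.Y649.FA.StepE

/-!
# Four fully active cops win on connected graphs without a `K₃,₃` model
-/

set_option autoImplicit false

namespace Pool.Agent.Y649.FA

open Pool.Agent.Helper805.CHS

variable {V : Type} {G : SimpleGraph V}

theorem all_win [Finite V] (hiso : ∀ v, ∃ w, G.Adj v w) (hconn : G.Connected)
    (h33 : ¬ K33Model G) : ∀ n : ℕ, ∀ T : Set V, T.ncard ≤ n → WinE G T ∧ WinD G T := by
  have key : ∀ n : ℕ, ∀ T : Set V, T.ncard < n → WinE G T ∧ WinD G T := by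
    intro n
    induction n with
    | zero => intro T hT; omega
    | succ n ih =>
      intro T hT
      have IHE : ∀ T', T' ⊂ T → WinE G T' := fun T' h =>
        (ih T' (by have := Set.ncard_lt_ncard h (Set.toFinite T); omega)).1
      have IHD : ∀ T', T' ⊂ T → WinD G T' := fun T' h =>
        (ih T' (by have := Set.ncard_lt_ncard h (Set.toFinite T); omega)).2
      have WS : WinS G T := stepS hiso hconn h33 IHD
      exact ⟨stepE hiso hconn IHE IHD, stepD hiso hconn h33 IHE IHD WS⟩
  intro n T hT
  exact key (n + 1) T (by omega)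

theorem exists_nbr [Nontrivial V] (hconn : G.Connected) : ∀ v, ∃ w, G.Adj v w := fun v =>
  hconn.preconnected.exists_adj_of_nontrivial v

/-- Four fully active cops win on every finite connected graph without a `K₃,₃` model. -/
theorem copsWin_four [Finite V] [Nontrivial V] (hconn : G.Connected) (h33 : ¬ K33Model G) :
    CopsWin G 4 := by
  have hiso := exists_nbr hconn
  obtain ⟨v⟩ := hconn.nonempty
  obtain ⟨w, hvw⟩ := hiso v
  refine ⟨fun _ => v, fun r => ?_⟩
  by_cases hr : r = v
  · subst hr
    exact W.caught ⟨0, rfl⟩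
  refine W.of_move (c' := fun _ => w) (fun _ => hvw) ?_
  by_cases hrw : r = w
  · subst hrw
    exact Or.inl ⟨0, rfl⟩
  set S : Set V := {v, w} with hS
  have hrS : r ∈ (Set.univ \ S : Set V) := ⟨Set.mem_univ _, by simp [hS, hr, hrw]⟩
  refine (all_win hiso hconn h33 _ (Comp G (Set.univ \ S) r) le_rfl).1 _ r v w
    (self_mem_comp hrS) comp_tconn hvw ?_ ?_ ?_ (Or.inr rfl)
  · intro h; exact (comp_sub h).2 (by simp [hS])
  · intro h; exact (comp_sub h).2 (by simp [hS])
  · intro x hx
    rcases nb_comp hx with h | ⟨h, _⟩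
    · obtain ⟨h, _⟩ := h
      exact absurd (Set.mem_univ _) h
    · simpa [hS] using h

end Pool.Agent.Y649.FA
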