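import Pool.Agent.Y649.FA.Main
import Pool.Agent.Helper805.CHS.Drawn

/-!
# Plane drawings; straight-line drawings on the integer grid
-/

set_option autoImplicit false

namespace Pool.Agent.Y649.FA

open Pool.Agent.Helper805.CHS

/-- A graph is planar if it can be drawn in the plane: distinct vertices are distinct points,
edges are simple arcs between their ends which avoid all other vertices, and the arcs of two
different edges meet only in common ends. -/
def Planar {V : Type} (G : SimpleGraph V) : Prop :=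
  ∃ p : V → ℝ × ℝ, ∃ γ : V → V → unitInterval → ℝ × ℝ,
    Function.Injective p ∧
    (∀ u v, G.Adj u v →
      Continuous (γ u v) ∧ Function.Injective (γ u v) ∧
      γ u v 0 = p u ∧ γ u v 1 = p v ∧
      (∀ z t, γ u v t = p z → z = u ∨ z = v)) ∧
    (∀ u v w x, G.Adj u v → G.Adj w x →
      s(u, v) ≠ s(w, x) →
      ∀ t s, γ u v t = γ w x s → (γ u v t = p u ∨ γ u v t = p v))

theorem Planar.no_k33 {V : Type} {G : SimpleGraph V} (h : Planar G) : ¬ K33Model G := by
  obtain ⟨p, γ, hp, h1, h2⟩ := h
  let e := Complex.equivRealProdCLM.symm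
  have hD : IsDrawing G (fun i => e (p i)) (fun u v t => e (γ u v t)) := by
    refine ⟨e.injective.comp hp, ?_, ?_, ?_, ?_, ?_⟩
    · intro u v huv
      exact e.continuous.comp (h1 u v huv).1
    · intro u v huv
      simp only [(h1 u v huv).2.2.1]
    · intro u v huv
      simp only [(h1 u v huv).2.2.2.1]
    · intro u v huv z t he
      exact (h1 u v huv).2.2.2.2 z t (e.injective he)
    · intro u v w x huv hwx hne hne2 _ _ t s he
      have hne' : s(u, v) ≠ s(w, x) := by
        intro h
        rcases Sym2.eq_iff.mp h with ⟨h1, _⟩ | ⟨h1, _⟩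
        · exact hne h1
        · exact hne2 h1
      rcases h2 u v w x huv hwx hne' t s (e.injective he) with h | h
      · exact Or.inl (congrArg e h)
      · exact Or.inr (congrArg e h)
  exact no_K33Model hD

/-- orientation determinant -/
def orient (a b c : ℤ × ℤ) : ℤ := (b.1 - a.1) * (c.2 - a.2) - (b.2 - a.2) * (c.1 - a.1)

/-- orientation determinant over the reals -/
def ro (a b c : ℝ × ℝ) : ℝ := (b.1 - a.1) * (c.2 - a.2) - (b.2 - a.2) * (c.1 - a.1)

/-- point of a segment -/
def seg (a b : ℝ × ℝ) (t : ℝ) : ℝ × ℝ := ((1 - t) * a.1 + t * b.1, (1 - t) * a.2 + t * b.2)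

theorem ro_seg (a b c d : ℝ × ℝ) (s : ℝ) :
    ro a b (seg c d s) = (1 - s) * ro a b c + s * ro a b d := by
  unfold ro seg; ring

theorem ro_seg_self (a b : ℝ × ℝ) (s : ℝ) : ro a b (seg a b s) = 0 := by
  unfold ro seg; ring

theorem ro_left (a b : ℝ × ℝ) : ro a b a = 0 := by unfold ro; ring

theorem ro_right (a b : ℝ × ℝ) : ro a b b = 0 := by unfold ro; ring

theorem seg_zero (a b : ℝ × ℝ) : seg a b 0 = a := by unfold seg; simp

theorem seg_one (a b : ℝ × ℝ) : seg a b 1 = b := by unfold seg; simp

theorem seg_inj {a b : ℝ × ℝ} (hab : a ≠ b) {s t : ℝ} (h : seg a b s = seg a b t) : s = t := by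
  unfold seg at h
  simp only [Prod.mk.injEq] at h
  obtain ⟨h1, h2⟩ := h
  have e1 : (s - t) * (b.1 - a.1) = 0 := by linear_combination h1
  have e2 : (s - t) * (b.2 - a.2) = 0 := by linear_combination h2
  rcases mul_eq_zero.mp e1 with e | e
  · linarith
  · rcases mul_eq_zero.mp e2 with e' | e'
    · linarith
    · exact absurd (Prod.ext (by linarith) (by linarith)) hab

theorem lin_ne {a b s : ℝ} (hab : 0 < a * b) (h0 : 0 ≤ s) (h1 : s ≤ 1) :
    (1 - s) * a + s * b ≠ 0 := by
  intro h
  rcases pos_and_pos_or_neg_and_neg_of_mul_pos hab with ⟨ha, hb⟩ | ⟨ha, hb⟩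
  · rcases eq_or_lt_of_le h0 with rfl | h2
    · simp at h; linarith
    · nlinarith [mul_pos h2 hb, mul_nonneg (sub_nonneg.mpr h1) ha.le]
  · rcases eq_or_lt_of_le h0 with rfl | h2
    · simp at h; linarith
    · nlinarith [mul_pos h2 (neg_pos.mpr hb), mul_nonneg (sub_nonneg.mpr h1) (neg_pos.mpr ha).le]

theorem planar_of_int {V : Type} (G : SimpleGraph V) (q : V → ℤ × ℤ) (hq : Function.Injective q)
    (h1 : ∀ u v z, G.Adj u v → z ≠ u → z ≠ v → orient (q u) (q v) (q z) ≠ 0)
    (h2 : ∀ u v w x, G.Adj u v → G.Adj w x → u ≠ w → u ≠ x → v ≠ w → v ≠ x →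
      0 < orient (q u) (q v) (q w) * orient (q u) (q v) (q x) ∨
      0 < orient (q w) (q x) (q u) * orient (q w) (q x) (q v)) : Planar G := by
  obtain ⟨p, hp⟩ : ∃ p : V → ℝ × ℝ, p = fun v => (((q v).1 : ℝ), ((q v).2 : ℝ)) := ⟨_, rfl⟩
  have hcast : ∀ a b c, ro (p a) (p b) (p c) = (orient (q a) (q b) (q c) : ℝ) := by
    intro a b c
    rw [hp]; unfold ro orient; push_cast; ring
  have hpinj : Function.Injective p := by
    intro a b hab
    rw [hp] at hab
    simp only [Prod.mk.injEq, Int.cast_inj] at hab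
    exact hq (Prod.ext hab.1 hab.2)
  have hne : ∀ a b c, orient (q a) (q b) (q c) ≠ 0 → ro (p a) (p b) (p c) ≠ 0 := by
    intro a b c h
    rw [hcast]; exact_mod_cast h
  refine ⟨p, fun u v t => seg (p u) (p v) t, hpinj, ?_, ?_⟩
  · intro u v huv
    refine ⟨?_, ?_, ?_, ?_, ?_⟩
    · unfold seg; fun_prop
    · intro s t hst
      exact Subtype.ext (seg_inj (fun h => huv.ne (hpinj h)) hst)
    · simpa using seg_zero (p u) (p v)
    · simpa using seg_one (p u) (p v)
    · intro z t hz
      by_contra hcon
      push Not at hcon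
      refine hne u v z (h1 u v z huv hcon.1 hcon.2) ?_
      rw [← hz]; exact ro_seg_self _ _ _
  · intro u v w x huv hwx hS t s hts
    have hts' : seg (p u) (p v) t = seg (p w) (p x) s := hts
    have hP : ro (p u) (p v) (seg (p w) (p x) s) = 0 := by
      rw [← hts']; exact ro_seg_self _ _ _
    have hP2 : ro (p w) (p x) (seg (p u) (p v) t) = 0 := by
      rw [hts']; exact ro_seg_self _ _ _
    rw [ro_seg] at hP hP2
    show seg (p u) (p v) t = p u ∨ seg (p u) (p v) t = p v
    rw [hts']
    by_cases c1 : u = w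
    · subst c1
      have hvx : x ≠ v := by rintro rfl; exact hS rfl
      rw [ro_left, mul_zero, zero_add] at hP
      have : (s : ℝ) = 0 := by
        rcases mul_eq_zero.mp hP with h | h
        · exact h
        · exact absurd h (hne _ _ _ (h1 u v x huv hwx.ne.symm hvx))
      left; rw [this, seg_zero]
    by_cases c2 : u = x
    · subst c2
      have hvw : w ≠ v := by rintro rfl; exact hS Sym2.eq_swap
      rw [ro_left, mul_zero, add_zero] at hP
      have : (s : ℝ) = 1 := by
        rcases mul_eq_zero.mp hP with h | h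
        · linarith
        · exact absurd h (hne _ _ _ (h1 u v w huv hwx.ne hvw))
      left; rw [this, seg_one]
    by_cases c3 : v = w
    · subst c3
      rw [ro_right, mul_zero, zero_add] at hP
      have : (s : ℝ) = 0 := by
        rcases mul_eq_zero.mp hP with h | h
        · exact h
        · exact absurd h (hne _ _ _ (h1 u v x huv (Ne.symm c2) hwx.ne.symm))
      right; rw [this, seg_zero]
    by_cases c4 : v = x
    · subst c4
      rw [ro_right, mul_zero, add_zero] at hP
      have : (s : ℝ) = 1 := by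
        rcases mul_eq_zero.mp hP with h | h
        · linarith
        · exact absurd h (hne _ _ _ (h1 u v w huv (Ne.symm c1) hwx.ne))
      right; rw [this, seg_one]
    exfalso
    rcases h2 u v w x huv hwx c1 c2 c3 c4 with h | h
    · refine lin_ne (a := ro (p u) (p v) (p w)) (b := ro (p u) (p v) (p x)) ?_ s.2.1 s.2.2 hP
      rw [hcast, hcast]; exact_mod_cast h
    · refine lin_ne (a := ro (p w) (p x) (p u)) (b := ro (p w) (p x) (p v)) ?_ t.2.1 t.2.2 hP2
      rw [hcast, hcast]; exact_mod_cast h

end Pool.Agent.Y649.FA
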