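import Pool.Agent.Y649.FA.Theta

/-!
# Splicing a chord path into a cycle
-/

set_option autoImplicit false

namespace Pool.Agent.Y649.FA

variable {V : Type} {G : SimpleGraph V}

/-- `α 0 … α u = w 0 … w L = β v, β (v+1) …` -/
def cat3 (α : ℕ → V) (u : ℕ) (w : ℕ → V) (L : ℕ) (β : ℕ → V) (v : ℕ) : ℕ → V :=
  cat (cat α u w) (u + L) (fun k => β (v + k))

theorem cat3_1 {α w β : ℕ → V} {u L v k : ℕ} (hk : k ≤ u) : cat3 α u w L β v k = α k := by
  unfold cat3
  rw [cat_le (by omega), cat_le hk]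

theorem cat3_2 {α w β : ℕ → V} {u L v k : ℕ} (h1 : α u = w 0) (hk : u ≤ k) (hk2 : k ≤ u + L) :
    cat3 α u w L β v k = w (k - u) := by
  unfold cat3
  rw [cat_le hk2, cat_ge h1 hk]

theorem cat3_3 {α w β : ℕ → V} {u L v k : ℕ} (h1 : α u = w 0) (h2 : w L = β v)
    (hk : u + L ≤ k) : cat3 α u w L β v k = β (v + (k - (u + L))) := by
  unfold cat3
  refine cat_ge ?_ hk
  rw [cat_ge h1 (by omega)]
  simpa using h2

theorem cat3_adj {α w β : ℕ → V} {u L v s : ℕ} (h1 : α u = w 0) (h2 : w L = β v)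
    (hα : ∀ k, k < u → G.Adj (α k) (α (k + 1))) (hw : ∀ k, k < L → G.Adj (w k) (w (k + 1)))
    (hβ : ∀ k, k < s → G.Adj (β (v + k)) (β (v + k + 1))) :
    ∀ k, k < u + L + s → G.Adj (cat3 α u w L β v k) (cat3 α u w L β v (k + 1)) := by
  refine (((wk_univ hα).cat (wk_univ hw) h1 (Or.inl (Set.mem_univ _))).cat
    (w' := fun k => β (v + k)) (wk_univ hβ) ?_ (Or.inl (Set.mem_univ _))).1
  rw [cat_ge h1 (by omega)]
  simpa using h2

theorem cat3_inj {α w β : ℕ → V} {u L v s : ℕ} (h1 : α u = w 0) (h2 : w L = β v)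
    (hα : ∀ i j, i ≤ u → j ≤ u → α i = α j → i = j)
    (hw : ∀ i j, i ≤ L → j ≤ L → w i = w j → i = j)
    (hβ : ∀ i j, i ≤ s → j ≤ s → β (v + i) = β (v + j) → i = j)
    (hαβ : ∀ i j, i ≤ u → j ≤ s → α i ≠ β (v + j))
    (hwα : ∀ k, 0 < k → k < L → ∀ i, i ≤ u → w k ≠ α i)
    (hwβ : ∀ k, 0 < k → k < L → ∀ i, i ≤ s → w k ≠ β (v + i)) :
    ∀ i j, i ≤ u + L + s → j ≤ u + L + s → cat3 α u w L β v i = cat3 α u w L β v j → i = j := by
  have key : ∀ i j, i < j → j ≤ u + L + s → cat3 α u w L β v i ≠ cat3 α u w L β v j := by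
    intro i j hij hj he
    by_cases ci : i ≤ u
    · rw [cat3_1 ci] at he
      by_cases cj : j ≤ u
      · rw [cat3_1 cj] at he
        have := hα _ _ ci cj he; omega
      · by_cases cj2 : j < u + L
        · rw [cat3_2 h1 (by omega) cj2.le] at he
          exact hwα _ (by omega) (by omega) i ci he.symm
        · rw [cat3_3 h1 h2 (by omega)] at he
          exact hαβ _ _ ci (by omega) he
    · by_cases ci2 : i < u + L
      · rw [cat3_2 h1 (by omega) ci2.le] at he
        by_cases cj2 : j < u + L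
        · rw [cat3_2 h1 (by omega) cj2.le] at he
          have := hw _ _ (by omega) (by omega) he; omega
        · rw [cat3_3 h1 h2 (by omega)] at he
          exact hwβ _ (by omega) (by omega) _ (by omega) he
      · rw [cat3_3 h1 h2 (by omega), cat3_3 h1 h2 (by omega)] at he
        have := hβ _ _ (by omega) (by omega) he; omega
  intro i j hi hj he
  rcases Nat.lt_trichotomy i j with h | h | h
  · exact absurd he (key i j h hj)
  · exact h
  · exact absurd he.symm (key j i h hi)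

theorem TwoPath.congr {p q q' : ℕ → V} {m n : ℕ} (h : TwoPath G p m q n)
    (he : ∀ k, k ≤ n → q' k = q k) : TwoPath G p m q' n := by
  have := h.n1
  refine ⟨h.m1, h.n1, h.padj, ?_, h.pinj, ?_, ?_, ?_, ?_⟩
  · intro k hk
    rw [he k (by omega), he (k + 1) (by omega)]
    exact h.qadj k hk
  · intro i j hi hj
    rw [he i hi, he j hj]
    exact h.qinj i j hi hj
  · rw [he 0 (by omega)]; exact h.hs
  · rw [he n le_rfl]; exact h.ht
  · intro i j hi hj
    rw [he j hj]
    exact h.cross i j hi hj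

section

variable {p q w : ℕ → V} {m n L a b : ℕ}

theorem twoA (h : TwoPath G p m q n) (hab : a < b) (hb : b ≤ m) (hL : 2 ≤ L)
    (hw : ∀ k, k < L → G.Adj (w k) (w (k + 1))) (hw0 : w 0 = p a) (hwL : w L = p b)
    (hwinj : ∀ i j, i ≤ L → j ≤ L → w i = w j → i = j)
    (hwp : ∀ k, 0 < k → k < L → ∀ i, i ≤ m → w k ≠ p i) :
    TwoPath G (fun k => p (a + k)) (b - a) w L := by
  refine ⟨by omega, by omega, fun k hk => h.padj (a + k) (by omega), hw, ?_, hwinj, ?_, ?_, ?_⟩
  · intro i j hi hj he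
    have := h.pinj _ _ (by omega) (by omega) he; omega
  · exact hw0.symm
  · rw [hwL]; show p (a + (b - a)) = p b; congr 1; omega
  · intro i j hi hj he
    by_cases c0 : j = 0
    · subst c0
      rw [hw0] at he
      have := h.pinj _ _ (by omega) (by omega) he; omega
    · by_cases c1 : j = L
      · subst c1
        rw [hwL] at he
        have := h.pinj _ _ (by omega) (by omega) he; omega
      · exact absurd he.symm (hwp j (by omega) (by omega) _ (by omega))

theorem cat3_inj_pp (h : TwoPath G p m q n) (hab : a < b) (hb : b ≤ m)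
    (hw0 : w 0 = p a) (hwL : w L = p b)
    (hwinj : ∀ i j, i ≤ L → j ≤ L → w i = w j → i = j)
    (hwp : ∀ k, 0 < k → k < L → ∀ i, i ≤ m → w k ≠ p i) :
    ∀ i j, i ≤ a + L + (m - b) → j ≤ a + L + (m - b) →
      cat3 p a w L p b i = cat3 p a w L p b j → i = j := by
  refine cat3_inj hw0.symm hwL (fun i j hi hj => h.pinj i j (by omega) (by omega)) hwinj ?_ ?_ ?_ ?_
  · intro i j hi hj he
    have := h.pinj _ _ (by omega) (by omega) he; omega
  · intro i j hi hj he
    have := h.pinj _ _ (by omega) (by omega) he; omega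
  · intro k h0 hk i hi
    exact hwp k h0 hk i (by omega)
  · intro k h0 hk i hi
    exact hwp k h0 hk _ (by omega)

theorem twoB (h : TwoPath G p m q n) (hab : a < b) (hb : b ≤ m) (hL : 2 ≤ L)
    (hw : ∀ k, k < L → G.Adj (w k) (w (k + 1))) (hw0 : w 0 = p a) (hwL : w L = p b)
    (hwinj : ∀ i j, i ≤ L → j ≤ L → w i = w j → i = j)
    (hwp : ∀ k, 0 < k → k < L → ∀ i, i ≤ m → w k ≠ p i)
    (hwq : ∀ k, 0 < k → k < L → ∀ i, i ≤ n → w k ≠ q i) :
    TwoPath G q n (cat3 p a w L p b) (a + L + (m - b)) := by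
  refine ⟨h.n1, by omega, h.qadj, ?_, h.qinj, cat3_inj_pp h hab hb hw0 hwL hwinj hwp, ?_, ?_, ?_⟩
  · exact cat3_adj hw0.symm hwL (fun k hk => h.padj k (by omega)) hw
      (fun k hk => h.padj (b + k) (by omega))
  · rw [cat3_1 (by omega)]; exact h.hs.symm
  · rw [cat3_3 hw0.symm hwL (by omega), ← h.ht]; congr 1; omega
  · intro i j hi hj he
    by_cases c1 : j ≤ a
    · rw [cat3_1 c1] at he
      have := h.cross _ _ (by omega) hi he.symm; omega
    · by_cases c2 : j < a + L
      · rw [cat3_2 hw0.symm (by omega) c2.le] at he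
        exact absurd he.symm (hwq _ (by omega) (by omega) _ hi)
      · rw [cat3_3 hw0.symm hwL (by omega)] at he
        have := h.cross _ _ (by omega) hi he.symm; omega

theorem cat3_inj_pq (h : TwoPath G p m q n) (ha : a < m) (hb0 : 0 < b) (hb : b ≤ n)
    (hw0 : w 0 = p a) (hwL : w L = q b)
    (hwinj : ∀ i j, i ≤ L → j ≤ L → w i = w j → i = j)
    (hwp : ∀ k, 0 < k → k < L → ∀ i, i ≤ m → w k ≠ p i)
    (hwq : ∀ k, 0 < k → k < L → ∀ i, i ≤ n → w k ≠ q i) :
    ∀ i j, i ≤ a + L + (n - b) → j ≤ a + L + (n - b) →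
      cat3 p a w L q b i = cat3 p a w L q b j → i = j := by
  refine cat3_inj hw0.symm hwL (fun i j hi hj => h.pinj i j (by omega) (by omega)) hwinj ?_ ?_ ?_ ?_
  · intro i j hi hj he
    have := h.qinj _ _ (by omega) (by omega) he; omega
  · intro i j hi hj he
    have := h.cross _ _ (by omega) (by omega) he; omega
  · intro k h0 hk i hi
    exact hwp k h0 hk i (by omega)
  · intro k h0 hk i hi
    exact hwq k h0 hk _ (by omega)

theorem cat3_adj_pq (h : TwoPath G p m q n) (ha : a < m) (hb : b ≤ n)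
    (hw : ∀ k, k < L → G.Adj (w k) (w (k + 1))) (hw0 : w 0 = p a) (hwL : w L = q b) :
    ∀ k, k < a + L + (n - b) → G.Adj (cat3 p a w L q b k) (cat3 p a w L q b (k + 1)) :=
  cat3_adj hw0.symm hwL (fun k hk => h.padj k (by omega)) hw
      (fun k hk => h.qadj (b + k) (by omega))

theorem twoC (h : TwoPath G p m q n) (ha : a < m) (hb0 : 0 < b) (hb : b ≤ n) (hL : 2 ≤ L)
    (hw : ∀ k, k < L → G.Adj (w k) (w (k + 1))) (hw0 : w 0 = p a) (hwL : w L = q b)
    (hwinj : ∀ i j, i ≤ L → j ≤ L → w i = w j → i = j)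
    (hwp : ∀ k, 0 < k → k < L → ∀ i, i ≤ m → w k ≠ p i)
    (hwq : ∀ k, 0 < k → k < L → ∀ i, i ≤ n → w k ≠ q i) :
    TwoPath G q b (cat3 p a w L q b) (a + L) := by
  refine ⟨by omega, by omega, fun k hk => h.qadj k (by omega), ?_,
    fun i j hi hj => h.qinj i j (by omega) (by omega), ?_, ?_, ?_, ?_⟩
  · intro k hk
    exact cat3_adj_pq h ha hb hw hw0 hwL k (by omega)
  · intro i j hi hj
    exact cat3_inj_pq h ha hb0 hb hw0 hwL hwinj hwp hwq i j (by omega) (by omega)
  · rw [cat3_1 (by omega)]; exact h.hs.symm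
  · rw [cat3_3 hw0.symm hwL (by omega)]; congr 1; omega
  · intro i j hi hj he
    by_cases c1 : j ≤ a
    · rw [cat3_1 c1] at he
      have := h.cross _ _ (by omega) (by omega) he.symm; omega
    · by_cases c2 : j < a + L
      · rw [cat3_2 hw0.symm (by omega) c2.le] at he
        exact absurd he.symm (hwq _ (by omega) (by omega) _ (by omega))
      · rw [cat3_3 hw0.symm hwL (by omega)] at he
        have := h.qinj _ _ (by omega) (by omega) he; omega

theorem twoD (h : TwoPath G p m q n) (ha : a < m) (hb0 : 0 < b) (hb : b ≤ n) (hL : 2 ≤ L)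
    (hw : ∀ k, k < L → G.Adj (w k) (w (k + 1))) (hw0 : w 0 = p a) (hwL : w L = q b)
    (hwinj : ∀ i j, i ≤ L → j ≤ L → w i = w j → i = j)
    (hwp : ∀ k, 0 < k → k < L → ∀ i, i ≤ m → w k ≠ p i)
    (hwq : ∀ k, 0 < k → k < L → ∀ i, i ≤ n → w k ≠ q i) :
    TwoPath G (fun k => p (a + k)) (m - a) (fun k => cat3 p a w L q b (a + k)) (L + (n - b)) := by
  refine ⟨by omega, by omega, fun k hk => h.padj _ (by omega), ?_, ?_, ?_, ?_, ?_, ?_⟩
  · intro k hk
    exact cat3_adj_pq h ha hb hw hw0 hwL (a + k) (by omega)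
  · intro i j hi hj he
    have := h.pinj _ _ (by omega) (by omega) he; omega
  · intro i j hi hj he
    have := cat3_inj_pq h ha hb0 hb hw0 hwL hwinj hwp hwq _ _ (by omega) (by omega) he
    omega
  · show p (a + 0) = cat3 p a w L q b (a + 0)
    rw [cat3_1 (by omega)]
  · show p (a + (m - a)) = cat3 p a w L q b (a + (L + (n - b)))
    rw [cat3_3 hw0.symm hwL (by omega), show a + (m - a) = m by omega, h.ht]
    congr 1; omega
  · intro i j hi hj he
    change p (a + i) = cat3 p a w L q b (a + j) at he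
    by_cases c1 : j = 0
    · subst c1
      rw [cat3_1 (by omega)] at he
      have := h.pinj _ _ (by omega) (by omega) he; omega
    · by_cases c2 : j < L
      · rw [cat3_2 hw0.symm (by omega) (by omega)] at he
        exact absurd he.symm (hwp _ (by omega) (by omega) _ (by omega))
      · rw [cat3_3 hw0.symm hwL (by omega)] at he
        have := h.cross _ _ (by omega) (by omega) he; omega

end

end Pool.Agent.Y649.FA
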