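import Pool.Agent.Y649.FA.StepS

/-!
# The robber is confined by a guarded path and a path with two trackers
-/

set_option autoImplicit false

namespace Pool.Agent.Y649.FA

open Pool.Agent.Helper805.CHS

variable {V : Type} {G : SimpleGraph V}

theorem Lev.lip_walk {T : Set V} {P : ℕ → V} {n : ℕ} {ℓ : V → ℕ} (h : Lev G T P n ℓ)
    {M : ℕ} {w : ℕ → V} (hw : Wk G T M w) {k : ℕ} (hk : 0 < k) :
    ∀ d, k + d < M → ℓ (w (k + d)) ≤ ℓ (w k) + d := by
  intro d
  induction d with
  | zero => intro _; simp
  | succ d ih =>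
    intro hd
    have h1 := ih (by omega)
    have h2 := h.lip _ _ (hw.2 (k + d) (by omega) (by omega))
      (hw.2 (k + d + 1) (by omega) (by omega)) (hw.1 (k + d) (by omega))
    have h3 : w (k + (d + 1)) = w (k + d + 1) := rfl
    rw [h3]
    omega

/-- reorder the cops: `1, 3, 2, 0` -/
def e1320 : Equiv.Perm (Fin 4) := ⟨![1, 3, 2, 0], ![3, 0, 2, 1], by decide, by decide⟩

/-- reorder the cops: `0, 3, 2, 1` -/
def e0321 : Equiv.Perm (Fin 4) := ⟨![0, 3, 2, 1], ![0, 3, 2, 1], by decide, by decide⟩

/-- reorder the cops: `0, 3, 1, 2` -/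
def e0312 : Equiv.Perm (Fin 4) := ⟨![0, 3, 1, 2], ![0, 2, 3, 1], by decide, by decide⟩

theorem coreD [Finite V] (hiso : ∀ v, ∃ w, G.Adj v w) (hconn : G.Connected)
    (h33 : ¬ K33Model G) {T : Set V} (IHD : ∀ T', T' ⊂ T → WinD G T') (WS : WinS G T)
    {S₁ : Set V} {Rel : V → V → Prop} {Q : ℕ → V} {n : ℕ} {ℓ : V → ℕ} {p : ℕ → V} {m s t : ℕ}
    (h : SD G T S₁ Rel Q n ℓ p m s t)
    (hreal : ∀ u, u ∈ T → ∃ i, i ≤ n ∧ ∃ L w, Wk G T L w ∧ w 0 = Q i ∧ w L = u ∧ i + L = ℓ u)
    (hle : ∀ i, i ≤ n → ∀ L w, Wk G T L w → w 0 = Q i → w L ∈ T → ℓ (w L) ≤ i + L)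
    (htwo : ∃ x y, x ∈ Nb G T ∧ y ∈ Nb G T ∧ x ≠ y)
    (c : Fin 4 → V) (r : V) (hr : r ∈ T) (hc0 : Rel (c 0) r) (hc1 : low Q n ℓ (c 1) r)
    (hc2 : up Q n ℓ (c 2) r) : WR G 4 c r := by
  classical
  have hst := h.st
  have htn := h.tn
  have hs0 : p 0 = Q s := h.two.hs
  have hsm : p m = Q t := by
    have h1 : p m = Q (s + (t - s)) := h.two.ht
    rwa [show s + (t - s) = t by omega] at h1
  by_cases hasc : ∃ b, b ≤ n ∧ ∃ u, u ∈ T ∧ G.Adj u (Q b) ∧ ℓ u + 1 = b
  · set b := Nat.find hasc with hbdef
    obtain ⟨hbn, u, hu, huQ, hub⟩ := Nat.find_spec hasc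
    rw [← hbdef] at hbn huQ hub
    have hbmin : ∀ u, u ∈ T → ∀ j, j ≤ n → G.Adj u (Q j) → ℓ u + 1 = j → b ≤ j :=
      fun u hu j hj h1 h2 => Nat.find_min' hasc ⟨hj, u, hu, h1, h2⟩
    obtain ⟨a, han, L, w, hw, hw0, hwL, haL⟩ := hreal u hu
    have hL1 : 1 ≤ L := by
      by_contra hcon
      have : L = 0 := by omega
      subst this
      exact h.QT a han (by rw [← hw0, hwL]; exact hu)
    obtain ⟨w', hw', hw'0, hw'M, hw'k⟩ := hw.snoc (v := Q b) (by rwa [hwL]) (Or.inl (by rwa [hwL]))
    rw [hw0] at hw'0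
    obtain ⟨M, hM⟩ : ∃ M, M = L + 1 := ⟨_, rfl⟩
    rw [← hM] at hw' hw'M
    have hM2 : 2 ≤ M := by omega
    have hbM : b = a + M := by omega
    have hwT : ∀ k, 0 < k → k < M → w' k ∈ T := hw'.2
    have hwlev : ∀ k, 0 < k → k < M → ℓ (w' k) = a + k := by
      intro k h0 hk
      have h1 := hle a han k w' (hw'.pre hk.le) hw'0 (hwT k h0 hk)
      have h2 := h.lev.lip_walk hw' h0 (L - k) (by omega)
      rw [show k + (L - k) = L by omega, hw'k L le_rfl, hwL] at h2
      omega
    have hwinj : ∀ i j, i ≤ M → j ≤ M → w' i = w' j → i = j := by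
      have key : ∀ i j, i < j → j ≤ M → w' i ≠ w' j := by
        intro i j hij hj he
        by_cases ci : i = 0
        · subst ci
          by_cases cj : j = M
          · subst cj
            rw [hw'0, hw'M] at he
            have := h.Qinj _ _ han hbn he
            omega
          · rw [hw'0] at he
            exact h.QT a han (he ▸ hwT j (by omega) (by omega))
        · by_cases cj : j = M
          · subst cj
            rw [hw'M] at he
            exact h.QT b hbn (he ▸ hwT i (by omega) (by omega))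
          · have h1 := hwlev i (by omega) (by omega)
            have h2 := hwlev j (by omega) (by omega)
            rw [he] at h1
            omega
      intro i j hi hj he
      rcases Nat.lt_trichotomy i j with h1 | h1 | h1
      · exact absurd he (key i j h1 hj)
      · exact h1
      · exact absurd he.symm (key j i h1 hi)
    have hwQ : ∀ k, 0 < k → k < M → ∀ i, i ≤ n → w' k ≠ Q i := fun k h0 hk i hi he =>
      h.QT i hi (he ▸ hwT k h0 hk)
    have hwp : ∀ k, 0 < k → k < M → ∀ i, i ≤ m → w' k ≠ p i := fun k h0 hk i hi he =>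
      h.pT i hi (he ▸ hwT k h0 hk)
    obtain ⟨Q', hQ'⟩ : ∃ Q', Q' = cat3 Q a w' M Q b := ⟨_, rfl⟩
    have v1 : ∀ k, k ≤ a → Q' k = Q k := fun k hk => by rw [hQ', cat3_1 hk]
    have v2 : ∀ k, k ≤ M → Q' (a + k) = w' k := fun k hk => by
      rw [hQ', cat3_2 hw'0.symm (by omega) (by omega)]; congr 1; omega
    have v3 : ∀ k, b ≤ k → Q' k = Q k := fun k hk => by
      rw [hQ', cat3_3 hw'0.symm hw'M (by omega)]; congr 1; omega
    have v2' : ∀ k, a < k → k < b → Q' k = w' (k - a) := fun k h1 h2 => by
      rw [← v2 (k - a) (by omega)]; congr 1; omega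
    have hinjQ' : ∀ i j, i ≤ n → j ≤ n → Q' i = Q' j → i = j := by
      have h1 := cat3_inj (s := n - b) hw'0.symm hw'M
        (fun i j hi hj => h.Qinj i j (by omega) (by omega)) hwinj
        (fun i j hi hj he => by have := h.Qinj _ _ (by omega) (by omega) he; omega)
        (fun i j hi hj he => by have := h.Qinj _ _ (by omega) (by omega) he; omega)
        (fun k h0 hk i hi => hwQ k h0 hk i (by omega))
        (fun k h0 hk i hi => hwQ k h0 hk _ (by omega))
      rw [show a + M + (n - b) = n by omega, ← hQ'] at h1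
      exact h1
    have hlev' : Lev G T Q' n ℓ := by
      refine ⟨h.lev.n1, ?_, h.lev.pos, h.lev.lip, ?_, ?_, ?_⟩
      · have h1 := cat3_adj (G := G) (s := n - b) hw'0.symm hw'M
          (fun k hk => h.lev.adj k (by omega)) hw'.1 (fun k hk => h.lev.adj (b + k) (by omega))
        rw [show a + M + (n - b) = n by omega, ← hQ'] at h1
        exact h1
      · intro u hu j hj huj
        by_cases c1 : j ≤ a
        · rw [v1 j c1] at huj; exact h.lev.ent1 u hu j hj huj
        · by_cases c2 : j < b
          · rw [v2' j (by omega) c2] at huj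
            have h1 := h.lev.lip _ _ (hwT (j - a) (by omega) (by omega)) hu huj.symm
            have h2 := hwlev (j - a) (by omega) (by omega)
            omega
          · rw [v3 j (by omega)] at huj; exact h.lev.ent1 u hu j hj huj
      · intro u hu j hj huj
        by_cases c1 : j ≤ a
        · rw [v1 j c1] at huj; exact h.lev.ent2 u hu j hj huj
        · by_cases c2 : j < b
          · rw [v2' j (by omega) c2] at huj
            have h1 := h.lev.lip _ _ hu (hwT (j - a) (by omega) (by omega)) huj
            have h2 := hwlev (j - a) (by omega) (by omega)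
            omega
          · rw [v3 j (by omega)] at huj; exact h.lev.ent2 u hu j hj huj
      · intro j hj hjT
        by_cases c1 : j ≤ a
        · rw [v1 j c1] at hjT; exact absurd hjT (h.QT j hj)
        · by_cases c2 : j < b
          · rw [v2' j (by omega) c2]
            have h2 := hwlev (j - a) (by omega) (by omega)
            omega
          · rw [v3 j (by omega)] at hjT; exact absurd hjT (h.QT j hj)
    have hw1 : w' 1 ∈ T := hwT 1 (by omega) (by omega)
    have hw1S : w' 1 ∈ IntS w' M := ⟨1, by omega, by omega, rfl⟩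
    have hsa : s ≤ a := by
      refine (h.Qst a han ⟨h.QT a han, w' 1, hw1, ?_⟩).1
      have := hw'.1 0 (by omega)
      rw [hw'0] at this
      exact this.symm
    have hbt : b ≤ t := (h.Qst b hbn ⟨h.QT b hbn, u, hu, huQ⟩).2
    -- exits against the old pair
    have exitQ : ∀ c1 r j, low Q n ℓ c1 r → r ∈ T → j ≤ n → G.Adj r (Q j) →
        (c1 = Q j ∨ G.Adj c1 (Q j)) ∨ (ℓ r + 1 = j ∧ b ≤ j) := by
      intro c1 r j h1 hr hj hrj
      by_cases hle' : j ≤ ℓ r
      · exact Or.inl (h.lev.low_ent h1 hr hj hrj hle')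
      · have := h.lev.ent2 r hr j hj hrj
        exact Or.inr ⟨by omega, hbmin r hr j hj hrj (by omega)⟩
    obtain ⟨m₀, hm₀⟩ := rlow_init hconn Q' n ℓ (c 3) r
    refine run hiso T (fun m => ![Rel, low Q n ℓ, up Q n ℓ, rlow G Q' n ℓ m]) ?_ ?_ ?_ m₀ c r ?_ hr
    · intro m i c r r' hc hr hr' hrr
      fin_cases i
      · exact h.sg.1 c r r' hc hr hr' hrr
      · exact h.lev.low_step hc hr hr' hrr
      · exact h.lev.up_step hc hr hr' hrr
      · exact hlev'.rlow_step hc hr hr' hrr
    · intro m c r r' hc hr hr' hrr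
      rcases h.nb r' ⟨hr', r, hr, hrr⟩ with h1 | ⟨j, _, hj, rfl⟩
      · exact ⟨0, h.sg.2 (c 0) r r' (hc 0) hr h1 hrr⟩
      · by_cases hle' : j ≤ ℓ r
        · exact ⟨1, h.lev.low_ent (hc 1) hr (by omega) hrr hle'⟩
        · exact ⟨2, h.lev.up_ent (hc 2) hr (by omega) hrr (by omega)⟩
    · -- the upper tracker moves to `Q'`
      clear hc0 hc1 hc2 hm₀ hr
      intro c r hc hr
      have hlow' : low Q' n ℓ (c 3) r := hlev'.rlow_zero (hc 3)
      have hup0 : up Q n ℓ (c 2) r := hc 2
      have hinit : rtr Q Q' n b ℓ (2 * b) (c 2) r := rtr_init v3 hup0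
      refine run hiso T (fun m => ![Rel, low Q n ℓ, rtr Q Q' n b ℓ m, low Q' n ℓ]) ?_ ?_ ?_
        (2 * b) c r ?_ hr
      · intro m i c r r' hc hr hr' hrr
        fin_cases i
        · exact h.sg.1 c r r' hc hr hr' hrr
        · exact h.lev.low_step hc hr hr' hrr
        · exact rtr_step h.lev hlev' hbn v3 hc hr hr' hrr
        · exact hlev'.low_step hc hr hr' hrr
      · intro m c r r' hc hr hr' hrr
        rcases h.nb r' ⟨hr', r, hr, hrr⟩ with h1 | ⟨j, _, hj, rfl⟩
        · exact ⟨0, h.sg.2 (c 0) r r' (hc 0) hr h1 hrr⟩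
        · rcases exitQ (c 1) r j (hc 1) hr (by omega) hrr with h2 | ⟨h2, h3⟩
          · exact ⟨1, h2⟩
          · exact ⟨2, rtr_ent h.lev hlev' hbn v3 (hc 2) hr (by omega) h3 hrr h2⟩
      · intro c r hc hr
        have hup' : up Q' n ℓ (c 2) r := rtr_zero (hc 2)
        refine settle hiso T (IntS w' M) ![Rel, low Q n ℓ, up Q' n ℓ, low Q' n ℓ] ?_ ?_ ?_
          c r ?_ hr
        · intro i c r r' hc hr hr' hrr
          fin_cases i
          · exact h.sg.1 c r r' hc hr hr' hrr
          · exact h.lev.low_step hc hr hr' hrr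
          · exact hlev'.up_step hc hr hr' hrr
          · exact hlev'.low_step hc hr hr' hrr
        · intro c r r' hc hr hr' hrr
          rcases hr' with hr' | ⟨k, h0, hk, rfl⟩
          · rcases h.nb r' ⟨hr', r, hr, hrr⟩ with h1 | ⟨j, _, hj, rfl⟩
            · exact ⟨0, h.sg.2 (c 0) r r' (hc 0) hr h1 hrr⟩
            · rcases exitQ (c 1) r j (hc 1) hr (by omega) hrr with h2 | ⟨h2, h3⟩
              · exact ⟨1, h2⟩
              · rw [← v3 j h3] at hrr ⊢
                exact ⟨2, hlev'.up_ent (hc 2) hr (by omega) hrr (by omega)⟩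
          · rw [← v2 k hk.le] at hrr ⊢
            by_cases hle' : a + k ≤ ℓ r
            · exact ⟨3, hlev'.low_ent (hc 3) hr (by omega) hrr hle'⟩
            · exact ⟨2, hlev'.up_ent (hc 2) hr (by omega) hrr (by omega)⟩
        · clear hc hr hinit hlow' hup0 hup'
          clear c r
          intro c r hc hr hrS
          set T' := Comp G (T \ IntS w' M) r with hT'
          have hsub : T' ⊆ T := fun x hx => (comp_sub hx).1
          have hconn' : (G.induce T').Connected := comp_conn ⟨hr, hrS⟩
          have hss : T' ⊂ T := comp_ssub hw1 hw1S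
          have hself : r ∈ T' := self_mem_comp ⟨hr, hrS⟩
          have hwT' : ∀ k, 0 < k → k < M → w' k ∉ T' :=
            fun k h0 hk hh => (comp_sub hh).2 ⟨k, h0, hk, rfl⟩
          have hpT' : ∀ i, i ≤ m → p i ∉ T' := fun i hi hh => h.pT i hi (hsub hh)
          have hQT' : ∀ i, i ≤ n → Q i ∉ T' := fun i hi hh => h.QT i hi (hsub hh)
          have hQ'T' : ∀ i, i ≤ n → Q' i ∉ T' := by
            intro i hi
            by_cases c1 : i ≤ a
            · rw [v1 i c1]; exact hQT' i hi
            · by_cases c2 : i < b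
              · rw [v2' i (by omega) c2]; exact hwT' _ (by omega) (by omega)
              · rw [v3 i (by omega)]; exact hQT' i hi
          have hadj3 : ∃ t ∈ T', ∃ k, 0 < k ∧ k < M ∧ G.Adj t (w' k) := by
            obtain ⟨t, ht, x, ⟨k, h0, hk, rfl⟩, _, hadj'⟩ := comp_adj h.conn hr hrS hw1 hw1S
            exact ⟨t, ht, k, h0, hk, hadj'⟩
          have hQadj' : ∃ j, j ≤ n ∧ ∃ u, u ∈ T' ∧ G.Adj u (Q' j) := by
            obtain ⟨t, ht, k, h0, hk, hadj'⟩ := hadj3
            exact ⟨a + k, by omega, t, ht, by rwa [v2 k hk.le]⟩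
          have hsh : ∀ i, s ≤ i → Q (s + (i - s)) = Q i := by
            intro i hi
            congr 1; omega
          have ja : w' 0 = (fun k => Q (s + k)) (a - s) := hw'0.trans (hsh a hsa).symm
          have jb : w' M = (fun k => Q (s + k)) (b - s) := hw'M.trans (hsh b (by omega)).symm
          have hth : ∀ t₁ ∈ T', ∀ i, a < i → i < b → G.Adj t₁ (Q i) →
              ∀ t' ∈ T', ∀ x, ((∃ i, s ≤ i ∧ i < a ∧ x = Q i) ∨ (∃ i, b < i ∧ i ≤ t ∧ x = Q i) ∨
                (∃ i, 0 < i ∧ i < m ∧ x = p i)) → ¬ G.Adj t' x := by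
            intro t₁ ht₁ i hi hi2 hadj t' ht' x hx hadj'
            refine theta_pp h33 (a := a - s) (b := b - s) h.two.symm (by omega) (by omega) hw'.1
              ja jb
              (fun k h0 hk i hi => hwQ k h0 hk _ (by omega)) hwp hwT'
              (fun i hi => hQT' _ (by omega)) hpT' hconn'
              ⟨t₁, ht₁, i - s, by omega, by omega, (hsh i (by omega)).symm ▸ hadj⟩
              ⟨t', ht', x, ?_, hadj'⟩ hadj3
            rcases hx with ⟨i, h1, h2, rfl⟩ | ⟨i, h1, h2, rfl⟩ | ⟨i, h1, h2, rfl⟩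
            · exact Or.inl ⟨i - s, by omega, (hsh i h1).symm⟩
            · exact Or.inr (Or.inl ⟨i - s, by omega, by omega, (hsh i (by omega)).symm⟩)
            · exact Or.inr (Or.inr ⟨i, h1, h2, rfl⟩)
          by_cases hD : ∃ t₁ ∈ T', ∃ i, a < i ∧ i < b ∧ G.Adj t₁ (Q i)
          · obtain ⟨t₁, ht₁, i₁, hi₁, hi₂, hadj₁⟩ := hD
            have hout := hth t₁ ht₁ i₁ hi₁ hi₂ hadj₁
            refine WR.of_perm e1320 ?_
            refine IHD T' hss {x | ∃ j, a ≤ j ∧ j < b ∧ x = Q j} (low Q n ℓ) Q' n ℓ
              (fun k => Q (a + k)) (b - a) a b ?_ _ r hself (hc 1) (hc 3) (hc 2)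
            refine ⟨comp_tconn, ⟨?_, ?_⟩, hlev'.mono hsub, hQ'T', hinjQ', by omega, hbn, ?_, ?_, ?_,
              ?_, ?_, ?_, hQadj'⟩
            · intro c r r' h1 h2 h3 h4
              exact h.lev.low_step h1 (hsub h2) (hsub h3) h4
            · rintro c r r' h1 h2 ⟨j, hj, hj2, rfl⟩ h4
              rcases exitQ c r j h1 (hsub h2) (by omega) h4 with h5 | ⟨_, h5⟩
              · exact h5
              · omega
            · have h1 := twoA (a := a - s) (b := b - s) h.two.symm (by omega) (by omega) hM2 hw'.1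
                ja jb hwinj
                (fun k h0 hk i hi => hwQ k h0 hk _ (by omega))
              have h2 := h1.congr (q' := fun k => Q' (a + k)) v2
              have e1 : (fun k => (fun k => Q (s + k)) (a - s + k)) = fun k => Q (a + k) := by
                funext k
                show Q (s + (a - s + k)) = Q (a + k)
                congr 1; omega
              rw [e1, show b - s - (a - s) = b - a by omega, show M = b - a by omega] at h2
              exact h2
            · intro i hi; exact hQT' _ (by omega)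
            · exact ((h.lev.geo h.QT).sub (by omega)).mono hsub
            · rintro x ⟨j, hj, hj2, rfl⟩
              exact ⟨j - a, by omega, by show Q j = Q (a + (j - a)); congr 1; omega⟩
            · intro x hx
              have hx2 := hx
              obtain ⟨hxT', t', ht', hadj'⟩ := hx
              rcases nb_comp hx2 with h1 | ⟨⟨k, h0, hk, rfl⟩, _⟩
              · have hQj : ∃ j, s ≤ j ∧ j ≤ t ∧ x = Q j := by
                  rcases h.nb x h1 with h2 | h2
                  · obtain ⟨i, hi, rfl⟩ := h.S₁p x h2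
                    by_cases c0 : i = 0
                    · subst c0; exact ⟨s, le_rfl, by omega, hs0⟩
                    · by_cases cm : i = m
                      · subst cm; exact ⟨t, by omega, le_rfl, hsm⟩
                      · exact absurd hadj' (hout t' ht' _
                          (Or.inr (Or.inr ⟨i, by omega, by omega, rfl⟩)))
                  · exact h2
                obtain ⟨j, hj1, hj2, rfl⟩ := hQj
                by_cases c1 : j < a
                · exact absurd hadj' (hout t' ht' _ (Or.inl ⟨j, hj1, c1, rfl⟩))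
                · by_cases c2 : b < j
                  · exact absurd hadj' (hout t' ht' _ (Or.inr (Or.inl ⟨j, c2, hj2, rfl⟩)))
                  · by_cases c3 : j = b
                    · right
                      exact ⟨b, by omega, le_rfl, by rw [c3, v3 b le_rfl]⟩
                    · left; exact ⟨j, by omega, by omega, rfl⟩
              · right
                exact ⟨a + k, by omega, by omega, (v2 k hk.le).symm⟩
            · intro j hj hjN
              obtain ⟨_, t', ht', hadj'⟩ := hjN
              constructor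
              · by_contra hcon
                rw [v1 j (by omega)] at hadj'
                have h1 := h.Qst j hj ⟨h.QT j hj, t', hsub ht', hadj'⟩
                exact hout t' ht' _ (Or.inl ⟨j, h1.1, by omega, rfl⟩) hadj'
              · by_contra hcon
                rw [v3 j (by omega)] at hadj'
                have h1 := h.Qst j hj ⟨h.QT j hj, t', hsub ht', hadj'⟩
                exact hout t' ht' _ (Or.inr (Or.inl ⟨j, by omega, h1.2, rfl⟩)) hadj'
          · have hD' : ∀ t₁ ∈ T', ∀ i, a < i → i < b → ¬ G.Adj t₁ (Q i) :=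
              fun t₁ ht₁ i h1 h2 h3 => hD ⟨t₁, ht₁, i, h1, h2, h3⟩
            refine WR.of_perm e0321 ?_
            refine IHD T' hss S₁ Rel Q' n ℓ p m s t ?_ _ r hself (hc 0) (hc 3) (hc 2)
            refine ⟨comp_tconn, h.sg.mono hsub le_rfl, hlev'.mono hsub, hQ'T', hinjQ', hst, htn,
              ?_, hpT', h.geo.mono hsub, h.S₁p, ?_, ?_, hQadj'⟩
            · have h1 := twoB (a := a - s) (b := b - s) h.two.symm (by omega) (by omega) hM2 hw'.1
                ja jb hwinj
                (fun k h0 hk i hi => hwQ k h0 hk _ (by omega)) hwp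
              rw [show a - s + M + (t - s - (b - s)) = t - s by omega] at h1
              refine h1.congr ?_
              intro k hk
              show Q' (s + k) = _
              by_cases c1 : k ≤ a - s
              · rw [cat3_1 c1, v1 _ (by omega)]
              · by_cases c2 : k < a - s + M
                · rw [cat3_2 (α := fun k => Q (s + k)) (u := a - s) ja.symm (by omega) c2.le, v2' _ (by omega) (by omega)]
                  congr 1; omega
                · rw [cat3_3 (α := fun k => Q (s + k)) (u := a - s) (β := fun k => Q (s + k)) (v := b - s)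
                    ja.symm jb (by omega), v3 _ (by omega)]
                  show Q (s + k) = Q (s + (b - s + (k - (a - s + M))))
                  congr 1; omega
            · intro x hx
              have hx2 := hx
              obtain ⟨hxT', t', ht', hadj'⟩ := hx
              rcases nb_comp hx2 with h1 | ⟨⟨k, h0, hk, rfl⟩, _⟩
              · rcases h.nb x h1 with h2 | ⟨j, hj1, hj2, rfl⟩
                · exact Or.inl h2
                · right
                  by_cases c1 : j ≤ a
                  · exact ⟨j, hj1, hj2, (v1 j c1).symm⟩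
                  · by_cases c2 : j < b
                    · exact absurd hadj' (hD' t' ht' j (by omega) c2)
                    · exact ⟨j, hj1, hj2, (v3 j (by omega)).symm⟩
              · right
                exact ⟨a + k, by omega, by omega, (v2 k hk.le).symm⟩
            · intro j hj hjN
              obtain ⟨_, t', ht', hadj'⟩ := hjN
              by_cases c1 : j ≤ a
              · rw [v1 j c1] at hadj'
                exact h.Qst j hj ⟨h.QT j hj, t', hsub ht', hadj'⟩
              · by_cases c2 : j < b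
                · omega
                · rw [v3 j (by omega)] at hadj'
                  exact h.Qst j hj ⟨h.QT j hj, t', hsub ht', hadj'⟩
        · intro i
          fin_cases i
          · exact hc 0
          · exact hc 1
          · exact hup'
          · exact hc 3
      · intro i
        fin_cases i
        · exact hc 0
        · exact hc 1
        · exact hinit
        · exact hlow'
    · intro i
      fin_cases i
      · exact hc0
      · exact hc1
      · exact hc2
      · exact hm₀
  · -- no ascending entries: one tracker suffices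
    have hno : ∀ u, u ∈ T → ∀ j, j ≤ n → G.Adj u (Q j) → j ≤ ℓ u := by
      intro u hu j hj huj
      by_contra hcon
      have := h.lev.ent2 u hu j hj huj
      exact hasc ⟨j, hj, u, hu, huj, by omega⟩
    refine WS S₁ {x | ∃ j, s ≤ j ∧ j ≤ t ∧ x = Q j} Rel (low Q n ℓ) p m (fun k => Q (s + k))
      (t - s) ?_ c r hr hc0 hc1
    refine ⟨h.conn, h.sg, ⟨?_, ?_⟩, h.two, h.pT, fun i hi => h.QT _ (by omega), h.geo,
      (h.lev.geo h.QT).sub (by omega), h.nb, h.S₁p, ?_, htwo⟩
    · intro c r r' h1 h2 h3 h4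
      exact h.lev.low_step h1 h2 h3 h4
    · rintro c r r' h1 h2 ⟨j, hj, hj2, rfl⟩ h4
      exact h.lev.low_ent h1 h2 (by omega) h4 (hno r h2 j (by omega) h4)
    · rintro x ⟨j, hj, hj2, rfl⟩
      exact ⟨j - s, by omega, by show Q j = Q (s + (j - s)); congr 1; omega⟩

theorem stepD [Finite V] (hiso : ∀ v, ∃ w, G.Adj v w) (hconn : G.Connected)
    (h33 : ¬ K33Model G) {T : Set V} (IHE : ∀ T', T' ⊂ T → WinE G T')
    (IHD : ∀ T', T' ⊂ T → WinD G T') (WS : WinS G T) : WinD G T := by
  classical
  intro S₁ Rel Q n ℓ p m s t h c r hr hc0 hc1 hc2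
  have hst := h.st
  have htn := h.tn
  obtain ⟨j₀, hj₀, u₀, hu₀, hadj₀⟩ := h.Qadj
  have hz : Q j₀ ∈ Nb G T := ⟨h.QT j₀ hj₀, u₀, hu₀, hadj₀⟩
  have hexit : ∀ c0 c1 c2 r r', Rel c0 r → low Q n ℓ c1 r → up Q n ℓ c2 r → r ∈ T → r' ∉ T →
      G.Adj r r' → (c0 = r' ∨ G.Adj c0 r') ∨ (c1 = r' ∨ G.Adj c1 r') ∨
        (c2 = r' ∨ G.Adj c2 r') := by
    intro c0 c1 c2 r r' h0 h1 h2 hr hr' hrr
    rcases h.nb r' ⟨hr', r, hr, hrr⟩ with h3 | ⟨j, _, hj, rfl⟩
    · exact Or.inl (h.sg.2 c0 r r' h0 hr h3 hrr)
    · by_cases hle' : j ≤ ℓ r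
      · exact Or.inr (Or.inl (h.lev.low_ent h1 hr (by omega) hrr hle'))
      · exact Or.inr (Or.inr (h.lev.up_ent h2 hr (by omega) hrr (by omega)))
  by_cases hzz : ∀ x, x ∈ Nb G T → x = Q j₀
  · exact cut hiso hconn IHE Rel (low Q n ℓ) (up Q n ℓ) h.sg.1
      (fun c r r' h1 h2 h3 h4 => h.lev.low_step h1 h2 h3 h4)
      (fun c r r' h1 h2 h3 h4 => h.lev.up_step h1 h2 h3 h4) hexit hz hzz c r hc0 hc1 hc2 hr
  · push Not at hzz
    obtain ⟨x₁, hx₁, hne⟩ := hzz
    have htwo : ∃ x y, x ∈ Nb G T ∧ y ∈ Nb G T ∧ x ≠ y := ⟨x₁, Q j₀, hx₁, hz, hne⟩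
    -- canonical level function
    obtain ⟨ℓ', hlev', hreal, hle⟩ := exists_lev h.lev.n1 h.lev.adj h.Qinj (h.lev.geo h.QT)
      (h.QT 0 (Nat.zero_le _))
      (fun u hu => by
        obtain ⟨L, w, hw, h0, hL⟩ := h.conn u₀ hu₀ u hu
        have w1 : Wk G T 1 (fun k => if k = 0 then Q j₀ else u₀) := wk_one hadj₀.symm
        have j1 : (fun k : ℕ => if k = 0 then Q j₀ else u₀) 1 = w 0 := by simp [h0]
        refine ⟨j₀, hj₀, 1 + L, _, w1.cat hw j1 (Or.inl (by simpa using hu₀)), ?_, ?_⟩
        · rw [cat_le (Nat.zero_le _)]; simp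
        · rw [cat_ge (w := fun k : ℕ => if k = 0 then Q j₀ else u₀) j1 (by omega)]
          simpa using hL)
    have hll : ∀ u, u ∈ T → ℓ u ≤ ℓ' u := by
      intro u hu
      obtain ⟨i, hi, L, w, hw, h0, hL, he⟩ := hreal u hu
      have := h.lev.le_walk L w hw i hi h0 (by rwa [hL])
      rw [hL] at this
      omega
    have hSD : SD G T S₁ Rel Q n ℓ' p m s t :=
      ⟨h.conn, h.sg, hlev', h.QT, h.Qinj, h.st, h.tn, h.two, h.pT, h.geo, h.S₁p, h.nb, h.Qst,
        h.Qadj⟩
    obtain ⟨m₀, hm₀⟩ := rlow_init hconn Q n ℓ' (c 3) r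
    refine run hiso T (fun m => ![Rel, low Q n ℓ, up Q n ℓ, rlow G Q n ℓ' m]) ?_ ?_ ?_ m₀ c r ?_ hr
    · intro m i c r r' hc hr hr' hrr
      fin_cases i
      · exact h.sg.1 c r r' hc hr hr' hrr
      · exact h.lev.low_step hc hr hr' hrr
      · exact h.lev.up_step hc hr hr' hrr
      · exact hlev'.rlow_step hc hr hr' hrr
    · intro m c r r' hc hr hr' hrr
      rcases hexit (c 0) (c 1) (c 2) r r' (hc 0) (hc 1) (hc 2) hr hr' hrr with h1 | h1 | h1
      · exact ⟨0, h1⟩
      · exact ⟨1, h1⟩
      · exact ⟨2, h1⟩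
    · clear hc0 hc1 hc2 hm₀ hr
      clear c r
      intro c r hc hr
      have hlow' : low Q n ℓ' (c 3) r := hlev'.rlow_zero (hc 3)
      obtain ⟨m₀, hm₀⟩ := rup_init hconn Q n ℓ' (c 1) r
      refine run hiso T (fun m => ![Rel, rup G Q n ℓ' m, up Q n ℓ, low Q n ℓ']) ?_ ?_ ?_ m₀ c r ?_
        hr
      · intro m i c r r' hc hr hr' hrr
        fin_cases i
        · exact h.sg.1 c r r' hc hr hr' hrr
        · exact hlev'.rup_step hc hr hr' hrr
        · exact h.lev.up_step hc hr hr' hrr
        · exact hlev'.low_step hc hr hr' hrr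
      · intro m c r r' hc hr hr' hrr
        rcases h.nb r' ⟨hr', r, hr, hrr⟩ with h3 | ⟨j, _, hj, rfl⟩
        · exact ⟨0, h.sg.2 (c 0) r r' (hc 0) hr h3 hrr⟩
        · by_cases hle' : j ≤ ℓ' r
          · exact ⟨3, hlev'.low_ent (hc 3) hr (by omega) hrr hle'⟩
          · have := hll r hr
            exact ⟨2, h.lev.up_ent (hc 2) hr (by omega) hrr (by omega)⟩
      · intro c r hc hr
        have hup' : up Q n ℓ' (c 1) r := hlev'.rup_zero (hc 1)
        refine WR.of_perm e0312 ?_
        exact coreD hiso hconn h33 IHD WS hSD hreal hle htwo _ r hr (hc 0) (hc 3) hup'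
      · intro i
        fin_cases i
        · exact hc 0
        · exact hm₀
        · exact hc 2
        · exact hlow'
    · intro i
      fin_cases i
      · exact hc0
      · exact hc1
      · exact hc2
      · exact hm₀

end Pool.Agent.Y649.FA
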