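import Pool.Agent.Y649.FA.Canon
import Pool.Agent.Helper805.CHS.Basic

/-!
# Theta graphs and the minor `K₃,₃`
-/

set_option autoImplicit false

namespace Pool.Agent.Y649.FA

open Pool.Agent.Helper805.CHS

variable {V : Type} {G : SimpleGraph V}

theorem conn_of_star {S : Set V} {r : V} (hr : r ∈ S)
    (h : ∀ x, x ∈ S → ∃ (L : ℕ) (w : ℕ → V), w 0 = r ∧ w L = x ∧
      (∀ k, k < L → G.Adj (w k) (w (k + 1))) ∧ ∀ k, k ≤ L → w k ∈ S) :
    (G.induce S).Connected := by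
  have key : ∀ x (hx : x ∈ S), (G.induce S).Reachable ⟨r, hr⟩ ⟨x, hx⟩ := by
    intro x hx
    obtain ⟨L, w, h0, hL, hadj, hmem⟩ := h x hx
    have : ∀ k (hk : k ≤ L), (G.induce S).Reachable ⟨r, hr⟩ ⟨w k, hmem k hk⟩ := by
      intro k
      induction k with
      | zero =>
        intro hk
        have : (⟨w 0, hmem 0 hk⟩ : S) = ⟨r, hr⟩ := Subtype.ext h0
        rw [this]
      | succ k ih =>
        intro hk
        refine (ih (by omega)).trans ?_
        apply SimpleGraph.Adj.reachable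
        exact hadj k (by omega)
    have h2 := this L le_rfl
    have h3 : (⟨w L, hmem L le_rfl⟩ : S) = ⟨x, hx⟩ := Subtype.ext hL
    rwa [h3] at h2
  rw [SimpleGraph.connected_iff]
  refine ⟨?_, ⟨⟨r, hr⟩⟩⟩
  rintro ⟨x, hx⟩ ⟨y, hy⟩
  exact (key x hx).symm.trans (key y hy)

theorem conn_single (v : V) : (G.induce ({v} : Set V)).Connected := by
  refine conn_of_star (r := v) rfl ?_
  rintro x rfl
  exact ⟨0, fun _ => x, rfl, rfl, fun k hk => by omega, fun k _ => rfl⟩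

/-- the interior of a walk -/
def IntS (w : ℕ → V) (L : ℕ) : Set V := {x | ∃ k, 0 < k ∧ k < L ∧ w k = x}

theorem conn_int {w : ℕ → V} {L : ℕ} (hL : 2 ≤ L) (hadj : ∀ k, k < L → G.Adj (w k) (w (k + 1))) :
    (G.induce (IntS w L)).Connected := by
  refine conn_of_star (r := w 1) ⟨1, by omega, by omega, rfl⟩ ?_
  rintro x ⟨k, h0, hk, rfl⟩
  refine ⟨k - 1, fun j => w (1 + j), rfl, ?_, ?_, ?_⟩
  · simp only []
    congr 1; omega
  · intro j hj; exact hadj (1 + j) (by omega)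
  · intro j hj; exact ⟨1 + j, by omega, by omega, rfl⟩

theorem theta (h33 : ¬ K33Model G) {α β w : ℕ → V} {la lb L : ℕ} {T : Set V}
    (hα : ∀ k, k < la → G.Adj (α k) (α (k + 1))) (hβ : ∀ k, k < lb → G.Adj (β k) (β (k + 1)))
    (hw : ∀ k, k < L → G.Adj (w k) (w (k + 1)))
    (hα0 : α 0 = w 0) (hβ0 : β 0 = w 0) (hα1 : α la = w L) (hβ1 : β lb = w L)
    (huv : w 0 ≠ w L)
    (huα : ∀ x, x ∈ IntS α la → x ≠ w 0 ∧ x ≠ w L)
    (huβ : ∀ x, x ∈ IntS β lb → x ≠ w 0 ∧ x ≠ w L)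
    (huw : ∀ x, x ∈ IntS w L → x ≠ w 0 ∧ x ≠ w L)
    (huT : ∀ x, x ∈ T → x ≠ w 0 ∧ x ≠ w L)
    (hαβ : ∀ x, x ∈ IntS α la → x ∉ IntS β lb)
    (hαw : ∀ x, x ∈ IntS α la → x ∉ IntS w L)
    (hβw : ∀ x, x ∈ IntS β lb → x ∉ IntS w L)
    (hαT : ∀ x, x ∈ IntS α la → x ∉ T) (hβT : ∀ x, x ∈ IntS β lb → x ∉ T)
    (hwT : ∀ x, x ∈ IntS w L → x ∉ T)
    (hT : (G.induce T).Connected)
    (h1 : ∃ t ∈ T, ∃ x ∈ IntS α la, G.Adj t x)
    (h2 : ∃ t ∈ T, ∃ x ∈ IntS β lb, G.Adj t x)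
    (h3 : ∃ t ∈ T, ∃ x ∈ IntS w L, G.Adj t x) : False := by
  apply h33
  have hla : 2 ≤ la := by obtain ⟨t, _, x, ⟨k, hk⟩, _⟩ := h1; omega
  have hlb : 2 ≤ lb := by obtain ⟨t, _, x, ⟨k, hk⟩, _⟩ := h2; omega
  have hlL : 2 ≤ L := by obtain ⟨t, _, x, ⟨k, hk⟩, _⟩ := h3; omega
  have e0 : ∀ {γ : ℕ → V} {l : ℕ}, 2 ≤ l → (∀ k, k < l → G.Adj (γ k) (γ (k + 1))) → γ 0 = w 0 →
      ∃ a ∈ ({w 0} : Set V), ∃ b ∈ IntS γ l, G.Adj a b := by
    intro γ l hl hγ h0
    refine ⟨w 0, rfl, γ 1, ⟨1, by omega, by omega, rfl⟩, ?_⟩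
    rw [← h0]; exact hγ 0 (by omega)
  have e1 : ∀ {γ : ℕ → V} {l : ℕ}, 2 ≤ l → (∀ k, k < l → G.Adj (γ k) (γ (k + 1))) → γ l = w L →
      ∃ a ∈ ({w L} : Set V), ∃ b ∈ IntS γ l, G.Adj a b := by
    intro γ l hl hγ h0
    refine ⟨w L, rfl, γ (l - 1), ⟨l - 1, by omega, by omega, rfl⟩, ?_⟩
    have := hγ (l - 1) (by omega)
    rw [show l - 1 + 1 = l by omega, h0] at this
    exact this.symm
  refine ⟨![{w 0}, {w L}, T], ![IntS α la, IntS β lb, IntS w L], ?_, ?_, ?_, ?_, ?_, ?_⟩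
  · intro i
    fin_cases i
    · exact conn_single _
    · exact conn_single _
    · exact hT
  · intro i
    fin_cases i
    · exact conn_int hla hα
    · exact conn_int hlb hβ
    · exact conn_int hlL hw
  · intro i j hij
    rw [Set.disjoint_left]
    fin_cases i <;> fin_cases j <;> simp at hij ⊢
    · exact huv
    · exact fun h => (huT _ h).1 rfl
    · exact fun h => huv h.symm
    · exact fun h => (huT _ h).2 rfl
    · exact fun x hx => (huT x hx).1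
    · exact fun x hx => (huT x hx).2
  · intro i j hij
    rw [Set.disjoint_left]
    fin_cases i <;> fin_cases j <;> simp at hij ⊢
    · exact fun x hx => hαβ x hx
    · exact fun x hx => hαw x hx
    · exact fun x hx hx' => hαβ x hx' hx
    · exact fun x hx => hβw x hx
    · exact fun x hx hx' => hαw x hx' hx
    · exact fun x hx hx' => hβw x hx' hx
  · intro i j
    rw [Set.disjoint_left]
    fin_cases i <;> fin_cases j <;> simp
    · exact fun h => (huα _ h).1 rfl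
    · exact fun h => (huβ _ h).1 rfl
    · exact fun h => (huw _ h).1 rfl
    · exact fun h => (huα _ h).2 rfl
    · exact fun h => (huβ _ h).2 rfl
    · exact fun h => (huw _ h).2 rfl
    · exact fun x hx hx' => hαT x hx' hx
    · exact fun x hx hx' => hβT x hx' hx
    · exact fun x hx hx' => hwT x hx' hx
  · intro i j
    fin_cases i <;> fin_cases j
    · exact e0 hla hα hα0
    · exact e0 hlb hβ hβ0
    · exact e0 hlL hw rfl
    · exact e1 hla hα hα1
    · exact e1 hlb hβ hβ1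
    · exact e1 hlL hw rfl
    · exact h1
    · exact h2
    · exact h3

/-- two internally disjoint paths with common ends -/
structure TwoPath (G : SimpleGraph V) (p : ℕ → V) (m : ℕ) (q : ℕ → V) (n : ℕ) : Prop where
  m1 : 1 ≤ m
  n1 : 1 ≤ n
  padj : ∀ k, k < m → G.Adj (p k) (p (k + 1))
  qadj : ∀ k, k < n → G.Adj (q k) (q (k + 1))
  pinj : ∀ i j, i ≤ m → j ≤ m → p i = p j → i = j
  qinj : ∀ i j, i ≤ n → j ≤ n → q i = q j → i = j
  hs : p 0 = q 0
  ht : p m = q n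
  cross : ∀ i j, i ≤ m → j ≤ n → p i = q j → (i = 0 ∧ j = 0) ∨ (i = m ∧ j = n)

theorem TwoPath.symm {p q : ℕ → V} {m n : ℕ} (h : TwoPath G p m q n) : TwoPath G q n p m :=
  ⟨h.n1, h.m1, h.qadj, h.padj, h.qinj, h.pinj, h.hs.symm, h.ht.symm, fun i j hi hj he => by
    have := h.cross j i hj hi he.symm
    tauto⟩

theorem wk_univ {L : ℕ} {w : ℕ → V} (h : ∀ k, k < L → G.Adj (w k) (w (k + 1))) :
    Wk G Set.univ L w := ⟨h, fun _ _ _ => Set.mem_univ _⟩

theorem rev_adj {p : ℕ → V} {m a : ℕ} (h : ∀ k, k < m → G.Adj (p k) (p (k + 1))) (ha : a ≤ m) :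
    ∀ k, k < a → G.Adj (p (a - k)) (p (a - (k + 1))) := by
  intro k hk
  have := h (a - (k + 1)) (by omega)
  rw [show a - (k + 1) + 1 = a - k by omega] at this
  exact this.symm

/-- A connected set `T` inside a cycle cannot be adjacent to both arcs and to a chord path:
chord path between two vertices of `p`. -/
theorem theta_pp (h33 : ¬ K33Model G) {p q w : ℕ → V} {m n L a b : ℕ} {T : Set V}
    (h : TwoPath G p m q n) (hab : a < b) (hb : b ≤ m)
    (hw : ∀ k, k < L → G.Adj (w k) (w (k + 1))) (hw0 : w 0 = p a) (hwL : w L = p b)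
    (hwp : ∀ k, 0 < k → k < L → ∀ i, i ≤ m → w k ≠ p i)
    (hwq : ∀ k, 0 < k → k < L → ∀ i, i ≤ n → w k ≠ q i)
    (hwT : ∀ k, 0 < k → k < L → w k ∉ T)
    (hTp : ∀ i, i ≤ m → p i ∉ T) (hTq : ∀ i, i ≤ n → q i ∉ T)
    (hT : (G.induce T).Connected)
    (h1 : ∃ t ∈ T, ∃ i, a < i ∧ i < b ∧ G.Adj t (p i))
    (h2 : ∃ t ∈ T, ∃ x, ((∃ i, i < a ∧ x = p i) ∨ (∃ i, b < i ∧ i ≤ m ∧ x = p i) ∨
      (∃ i, 0 < i ∧ i < n ∧ x = q i)) ∧ G.Adj t x)
    (h3 : ∃ t ∈ T, ∃ k, 0 < k ∧ k < L ∧ G.Adj t (w k)) : False := by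
  have hm1 := h.m1
  have hn1 := h.n1
  let β₂ : ℕ → V := cat q n (fun k => p (m - k))
  let β : ℕ → V := cat (fun k => p (a - k)) a β₂
  have j2 : q n = (fun k => p (m - k)) 0 := by simpa using h.ht.symm
  have j1 : (fun k => p (a - k)) a = β₂ 0 := by
    have : β₂ 0 = q 0 := cat_le (Nat.zero_le _)
    rw [this]; simpa using h.hs
  have hβadj : ∀ k, k < a + (n + (m - b)) → G.Adj (β k) (β (k + 1)) :=
    ((wk_univ (rev_adj h.padj (by omega : a ≤ m))).cat
      ((wk_univ h.qadj).cat (wk_univ (fun k hk => rev_adj h.padj le_rfl k (by omega)) (L := m - b))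
        j2 (Or.inl (Set.mem_univ _))) j1 (Or.inl (Set.mem_univ _))).1
  have vβ1 : ∀ k, k ≤ a → β k = p (a - k) := fun k hk => cat_le hk
  have vβ2 : ∀ k, a ≤ k → k ≤ a + n → β k = q (k - a) := by
    intro k hk hk2
    have : β k = β₂ (k - a) := cat_ge j1 hk
    rw [this]
    exact cat_le (by omega)
  have vβ3 : ∀ k, a + n ≤ k → β k = p (m - (k - a - n)) := by
    intro k hk
    have : β k = β₂ (k - a) := cat_ge j1 (by omega)
    rw [this]
    exact cat_ge j2 (by omega)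
  have hβchar : ∀ x, x ∈ IntS β (a + (n + (m - b))) → ((∃ i, i < a ∧ x = p i) ∨
      (∃ i, b < i ∧ i ≤ m ∧ x = p i) ∨ (∃ i, 0 < i ∧ i < n ∧ x = q i)) := by
    rintro x ⟨k, h0, hk, rfl⟩
    by_cases c1 : k ≤ a
    · exact Or.inl ⟨a - k, by omega, vβ1 k c1⟩
    · by_cases c2 : k < a + n
      · exact Or.inr (Or.inr ⟨k - a, by omega, by omega, vβ2 k (by omega) (by omega)⟩)
      · exact Or.inr (Or.inl ⟨m - (k - a - n), by omega, by omega, vβ3 k (by omega)⟩)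
  have hβmem : ∀ x, ((∃ i, i < a ∧ x = p i) ∨
      (∃ i, b < i ∧ i ≤ m ∧ x = p i) ∨ (∃ i, 0 < i ∧ i < n ∧ x = q i)) →
      x ∈ IntS β (a + (n + (m - b))) := by
    rintro x (⟨i, hi, rfl⟩ | ⟨i, hi, hi2, rfl⟩ | ⟨i, hi, hi2, rfl⟩)
    · exact ⟨a - i, by omega, by omega, by rw [vβ1 _ (by omega)]; congr 1; omega⟩
    · exact ⟨a + n + (m - i), by omega, by omega, by rw [vβ3 _ (by omega)]; congr 1; omega⟩
    · exact ⟨a + i, by omega, by omega, by rw [vβ2 _ (by omega) (by omega)]; congr 1; omega⟩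
  refine theta h33 (α := fun k => p (a + k)) (la := b - a) (β := β)
    (lb := a + (n + (m - b))) (w := w) (L := L) (T := T)
    (fun k hk => h.padj (a + k) (by omega)) hβadj hw (by simpa using hw0.symm) ?_ ?_ ?_ ?_ ?_ ?_ ?_
    ?_ ?_ ?_ ?_ ?_ ?_ ?_ hT ?_ ?_ ?_
  · rw [vβ1 0 (by omega), hw0]; simp
  · rw [hwL]; show p (a + (b - a)) = p b; congr 1; omega
  · rw [vβ3 _ (by omega), hwL]; congr 1; omega
  · rw [hw0, hwL]
    intro he
    have := h.pinj _ _ (by omega) hb he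
    omega
  · rintro x ⟨k, h0, hk, rfl⟩
    rw [hw0, hwL]
    constructor
    · intro he; have := h.pinj _ _ (by omega) (by omega) he; omega
    · intro he; have := h.pinj _ _ (by omega) (by omega) he; omega
  · intro x hx
    rw [hw0, hwL]
    rcases hβchar x hx with ⟨i, hi, rfl⟩ | ⟨i, hi, hi2, rfl⟩ | ⟨i, hi, hi2, rfl⟩
    · constructor
      · intro he; have := h.pinj _ _ (by omega) (by omega) he; omega
      · intro he; have := h.pinj _ _ (by omega) (by omega) he; omega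
    · constructor
      · intro he; have := h.pinj _ _ (by omega) (by omega) he; omega
      · intro he; have := h.pinj _ _ (by omega) (by omega) he; omega
    · constructor
      · intro he; have := h.cross _ _ (by omega) (by omega) he.symm; omega
      · intro he; have := h.cross _ _ (by omega) (by omega) he.symm; omega
  · rintro x ⟨k, h0, hk, rfl⟩
    rw [hw0, hwL]
    exact ⟨hwp k h0 hk a (by omega), hwp k h0 hk b hb⟩
  · intro x hx
    rw [hw0, hwL]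
    exact ⟨fun he => hTp a (by omega) (he ▸ hx), fun he => hTp b hb (he ▸ hx)⟩
  · rintro x ⟨k, h0, hk, rfl⟩ hx
    rcases hβchar _ hx with ⟨i, hi, he⟩ | ⟨i, hi, hi2, he⟩ | ⟨i, hi, hi2, he⟩
    · have := h.pinj _ _ (by omega) (by omega) he; omega
    · have := h.pinj _ _ (by omega) (by omega) he; omega
    · have := h.cross _ _ (by omega) (by omega) he; omega
  · rintro x ⟨k, h0, hk, rfl⟩ ⟨k', h0', hk', he⟩
    exact hwp k' h0' hk' (a + k) (by omega) he
  · rintro x hx ⟨k', h0', hk', he⟩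
    rcases hβchar _ hx with ⟨i, hi, rfl⟩ | ⟨i, hi, hi2, rfl⟩ | ⟨i, hi, hi2, rfl⟩
    · exact hwp k' h0' hk' i (by omega) he
    · exact hwp k' h0' hk' i (by omega) he
    · exact hwq k' h0' hk' i (by omega) he
  · rintro x ⟨k, h0, hk, rfl⟩
    exact hTp _ (by omega)
  · intro x hx
    rcases hβchar _ hx with ⟨i, hi, rfl⟩ | ⟨i, hi, hi2, rfl⟩ | ⟨i, hi, hi2, rfl⟩
    · exact hTp _ (by omega)
    · exact hTp _ (by omega)
    · exact hTq _ (by omega)
  · rintro x ⟨k, h0, hk, rfl⟩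
    exact hwT k h0 hk
  · obtain ⟨t, ht, i, hi, hi2, hadj⟩ := h1
    refine ⟨t, ht, p i, ⟨i - a, by omega, by omega, ?_⟩, hadj⟩
    simp only []; congr 1; omega
  · obtain ⟨t, ht, x, hx, hadj⟩ := h2
    exact ⟨t, ht, x, hβmem x hx, hadj⟩
  · obtain ⟨t, ht, k, h0, hk, hadj⟩ := h3
    exact ⟨t, ht, w k, ⟨k, h0, hk, rfl⟩, hadj⟩

/-- chord path between a vertex of `p` and a vertex of `q` -/
theorem theta_pq (h33 : ¬ K33Model G) {p q w : ℕ → V} {m n L a b : ℕ} {T : Set V}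
    (h : TwoPath G p m q n) (ha : a < m) (hb0 : 0 < b) (hb : b ≤ n)
    (hw : ∀ k, k < L → G.Adj (w k) (w (k + 1))) (hw0 : w 0 = p a) (hwL : w L = q b)
    (hwp : ∀ k, 0 < k → k < L → ∀ i, i ≤ m → w k ≠ p i)
    (hwq : ∀ k, 0 < k → k < L → ∀ i, i ≤ n → w k ≠ q i)
    (hwT : ∀ k, 0 < k → k < L → w k ∉ T)
    (hTp : ∀ i, i ≤ m → p i ∉ T) (hTq : ∀ i, i ≤ n → q i ∉ T)
    (hT : (G.induce T).Connected)
    (h1 : ∃ t ∈ T, ∃ x, ((∃ i, i < a ∧ x = p i) ∨ (∃ i, 0 < i ∧ i < b ∧ x = q i)) ∧ G.Adj t x)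
    (h2 : ∃ t ∈ T, ∃ x, ((∃ i, a < i ∧ i < m ∧ x = p i) ∨ (∃ i, b < i ∧ i ≤ n ∧ x = q i)) ∧
      G.Adj t x)
    (h3 : ∃ t ∈ T, ∃ k, 0 < k ∧ k < L ∧ G.Adj t (w k)) : False := by
  have hm1 := h.m1
  have hn1 := h.n1
  let α : ℕ → V := cat (fun k => p (a - k)) a q
  let β : ℕ → V := cat (fun k => p (a + k)) (m - a) (fun k => q (n - k))
  have j1 : (fun k => p (a - k)) a = q 0 := by simpa using h.hs
  have j2 : (fun k => p (a + k)) (m - a) = (fun k => q (n - k)) 0 := by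
    simp only [Nat.sub_zero]
    rw [show a + (m - a) = m by omega]
    exact h.ht
  have hαadj : ∀ k, k < a + b → G.Adj (α k) (α (k + 1)) :=
    ((wk_univ (rev_adj h.padj (by omega : a ≤ m))).cat
      (wk_univ (fun k hk => h.qadj k (by omega)) (L := b)) j1 (Or.inl (Set.mem_univ _))).1
  have hβadj : ∀ k, k < (m - a) + (n - b) → G.Adj (β k) (β (k + 1)) :=
    ((wk_univ (fun k hk => h.padj (a + k) (by omega))).cat
      (wk_univ (fun k hk => rev_adj h.qadj le_rfl k (by omega)) (L := n - b)) j2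
      (Or.inl (Set.mem_univ _))).1
  have vα1 : ∀ k, k ≤ a → α k = p (a - k) := fun k hk => cat_le hk
  have vα2 : ∀ k, a ≤ k → α k = q (k - a) := fun k hk => cat_ge j1 hk
  have vβ1 : ∀ k, k ≤ m - a → β k = p (a + k) := fun k hk => cat_le hk
  have vβ2 : ∀ k, m - a ≤ k → β k = q (n - (k - (m - a))) := fun k hk => cat_ge j2 hk
  have hαchar : ∀ x, x ∈ IntS α (a + b) → ((∃ i, i < a ∧ x = p i) ∨
      (∃ i, 0 < i ∧ i < b ∧ x = q i)) := by
    rintro x ⟨k, h0, hk, rfl⟩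
    by_cases c1 : k ≤ a
    · exact Or.inl ⟨a - k, by omega, vα1 k c1⟩
    · exact Or.inr ⟨k - a, by omega, by omega, vα2 k (by omega)⟩
  have hαmem : ∀ x, ((∃ i, i < a ∧ x = p i) ∨ (∃ i, 0 < i ∧ i < b ∧ x = q i)) →
      x ∈ IntS α (a + b) := by
    rintro x (⟨i, hi, rfl⟩ | ⟨i, hi, hi2, rfl⟩)
    · exact ⟨a - i, by omega, by omega, by rw [vα1 _ (by omega)]; congr 1; omega⟩
    · exact ⟨a + i, by omega, by omega, by rw [vα2 _ (by omega)]; congr 1; omega⟩
  have hβchar : ∀ x, x ∈ IntS β ((m - a) + (n - b)) → ((∃ i, a < i ∧ i < m ∧ x = p i) ∨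
      (∃ i, b < i ∧ i ≤ n ∧ x = q i)) := by
    rintro x ⟨k, h0, hk, rfl⟩
    by_cases c1 : k < m - a
    · exact Or.inl ⟨a + k, by omega, by omega, vβ1 k c1.le⟩
    · exact Or.inr ⟨n - (k - (m - a)), by omega, by omega, vβ2 k (by omega)⟩
  have hβmem : ∀ x, ((∃ i, a < i ∧ i < m ∧ x = p i) ∨ (∃ i, b < i ∧ i ≤ n ∧ x = q i)) →
      x ∈ IntS β ((m - a) + (n - b)) := by
    rintro x (⟨i, hi, hi2, rfl⟩ | ⟨i, hi, hi2, rfl⟩)
    · exact ⟨i - a, by omega, by omega, by rw [vβ1 _ (by omega)]; congr 1; omega⟩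
    · exact ⟨(m - a) + (n - i), by omega, by omega, by rw [vβ2 _ (by omega)]; congr 1; omega⟩
  refine theta h33 (α := α) (la := a + b) (β := β)
    (lb := (m - a) + (n - b)) (w := w) (L := L) (T := T)
    hαadj hβadj hw ?_ ?_ ?_ ?_ ?_ ?_ ?_ ?_ ?_
    ?_ ?_ ?_ ?_ ?_ ?_ hT ?_ ?_ ?_
  · rw [vα1 0 (by omega), hw0]; simp
  · rw [vβ1 0 (by omega), hw0]; simp
  · rw [vα2 _ (by omega), hwL]; congr 1; omega
  · rw [vβ2 _ (by omega), hwL]; congr 1; omega
  · rw [hw0, hwL]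
    intro he
    have := h.cross _ _ (by omega) hb he
    omega
  · intro x hx
    rw [hw0, hwL]
    rcases hαchar x hx with ⟨i, hi, rfl⟩ | ⟨i, hi, hi2, rfl⟩
    · constructor
      · intro he; have := h.pinj _ _ (by omega) (by omega) he; omega
      · intro he; have := h.cross _ _ (by omega) (by omega) he; omega
    · constructor
      · intro he; have := h.cross _ _ (by omega) (by omega) he.symm; omega
      · intro he; have := h.qinj _ _ (by omega) (by omega) he; omega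
  · intro x hx
    rw [hw0, hwL]
    rcases hβchar x hx with ⟨i, hi, hi2, rfl⟩ | ⟨i, hi, hi2, rfl⟩
    · constructor
      · intro he; have := h.pinj _ _ (by omega) (by omega) he; omega
      · intro he; have := h.cross _ _ (by omega) (by omega) he; omega
    · constructor
      · intro he; have := h.cross _ _ (by omega) (by omega) he.symm; omega
      · intro he; have := h.qinj _ _ (by omega) (by omega) he; omega
  · rintro x ⟨k, h0, hk, rfl⟩
    rw [hw0, hwL]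
    exact ⟨hwp k h0 hk a (by omega), hwq k h0 hk b hb⟩
  · intro x hx
    rw [hw0, hwL]
    exact ⟨fun he => hTp a (by omega) (he ▸ hx), fun he => hTq b hb (he ▸ hx)⟩
  · intro x hx hx'
    rcases hαchar x hx with ⟨i, hi, rfl⟩ | ⟨i, hi, hi2, rfl⟩
    · rcases hβchar _ hx' with ⟨j, hj, hj2, he⟩ | ⟨j, hj, hj2, he⟩
      · have := h.pinj _ _ (by omega) (by omega) he; omega
      · have := h.cross _ _ (by omega) (by omega) he; omega
    · rcases hβchar _ hx' with ⟨j, hj, hj2, he⟩ | ⟨j, hj, hj2, he⟩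
      · have := h.cross _ _ (by omega) (by omega) he.symm; omega
      · have := h.qinj _ _ (by omega) (by omega) he; omega
  · rintro x hx ⟨k', h0', hk', he⟩
    rcases hαchar _ hx with ⟨i, hi, rfl⟩ | ⟨i, hi, hi2, rfl⟩
    · exact hwp k' h0' hk' i (by omega) he
    · exact hwq k' h0' hk' i (by omega) he
  · rintro x hx ⟨k', h0', hk', he⟩
    rcases hβchar _ hx with ⟨i, hi, hi2, rfl⟩ | ⟨i, hi, hi2, rfl⟩
    · exact hwp k' h0' hk' i (by omega) he
    · exact hwq k' h0' hk' i (by omega) he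
  · intro x hx
    rcases hαchar _ hx with ⟨i, hi, rfl⟩ | ⟨i, hi, hi2, rfl⟩
    · exact hTp _ (by omega)
    · exact hTq _ (by omega)
  · intro x hx
    rcases hβchar _ hx with ⟨i, hi, hi2, rfl⟩ | ⟨i, hi, hi2, rfl⟩
    · exact hTp _ (by omega)
    · exact hTq _ (by omega)
  · rintro x ⟨k, h0, hk, rfl⟩
    exact hwT k h0 hk
  · obtain ⟨t, ht, x, hx, hadj⟩ := h1
    exact ⟨t, ht, x, hαmem x hx, hadj⟩
  · obtain ⟨t, ht, x, hx, hadj⟩ := h2
    exact ⟨t, ht, x, hβmem x hx, hadj⟩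
  · obtain ⟨t, ht, k, h0, hk, hadj⟩ := h3
    exact ⟨t, ht, w k, ⟨k, h0, hk, rfl⟩, hadj⟩

end Pool.Agent.Y649.FA
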