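import Pool.Agent.Y649.FA.Game

/-!
# Level functions and tracking cops
-/

set_option autoImplicit false

namespace Pool.Agent.Y649.FA

variable {V : Type} {G : SimpleGraph V}

/-- `w 0, …, w L` is a walk whose interior vertices are in `T` -/
def Wk (G : SimpleGraph V) (T : Set V) (L : ℕ) (w : ℕ → V) : Prop :=
  (∀ k, k < L → G.Adj (w k) (w (k + 1))) ∧ ∀ k, 0 < k → k < L → w k ∈ T

/-- `P 0, …, P n` is a walk and `ℓ` a level function on `T` compatible with the indices of `P` -/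
structure Lev (G : SimpleGraph V) (T : Set V) (P : ℕ → V) (n : ℕ) (ℓ : V → ℕ) : Prop where
  n1 : 1 ≤ n
  adj : ∀ i, i < n → G.Adj (P i) (P (i + 1))
  pos : ∀ u, u ∈ T → 1 ≤ ℓ u
  lip : ∀ u v, u ∈ T → v ∈ T → G.Adj u v → ℓ v ≤ ℓ u + 1
  ent1 : ∀ u, u ∈ T → ∀ j, j ≤ n → G.Adj u (P j) → ℓ u ≤ j + 1
  ent2 : ∀ u, u ∈ T → ∀ j, j ≤ n → G.Adj u (P j) → j ≤ ℓ u + 1
  self : ∀ j, j ≤ n → P j ∈ T → ℓ (P j) = j

theorem Lev.mono {T T' : Set V} {P : ℕ → V} {n : ℕ} {ℓ : V → ℕ} (h : Lev G T P n ℓ)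
    (hT : T' ⊆ T) : Lev G T' P n ℓ :=
  ⟨h.n1, h.adj, fun u hu => h.pos u (hT hu), fun u v hu hv => h.lip u v (hT hu) (hT hv),
    fun u hu => h.ent1 u (hT hu), fun u hu => h.ent2 u (hT hu), fun j hj h' => h.self j hj (hT h')⟩

/-- lower tracker -/
def low (P : ℕ → V) (n : ℕ) (ℓ : V → ℕ) (c r : V) : Prop :=
  ∃ i, i ≤ n ∧ c = P i ∧ (i = min (ℓ r) n ∨ i + 1 = min (ℓ r) n)

/-- upper tracker -/
def up (P : ℕ → V) (n : ℕ) (ℓ : V → ℕ) (c r : V) : Prop :=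
  ∃ i, i ≤ n ∧ c = P i ∧ (i = min (ℓ r) n ∨ i = min (ℓ r) n + 1 ∨ (min (ℓ r) n = n ∧ i + 1 = n))

theorem Lev.near {T : Set V} {P : ℕ → V} {n : ℕ} {ℓ : V → ℕ} (h : Lev G T P n ℓ) {i j : ℕ}
    (hi : i ≤ n) (hj : j ≤ n) (h1 : i ≤ j + 1) (h2 : j ≤ i + 1) :
    P i = P j ∨ G.Adj (P i) (P j) := by
  rcases Nat.lt_trichotomy i j with hlt | rfl | hlt
  · have : j = i + 1 := by omega
    subst this
    exact Or.inr (h.adj i (by omega))
  · exact Or.inl rfl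
  · have : i = j + 1 := by omega
    subst this
    exact Or.inr (h.adj j (by omega)).symm

theorem Lev.low_step {T : Set V} {P : ℕ → V} {n : ℕ} {ℓ : V → ℕ} (h : Lev G T P n ℓ)
    {c r r' : V} (hc : low P n ℓ c r) (hr : r ∈ T) (hr' : r' ∈ T) (hrr : G.Adj r r') :
    ∃ c', G.Adj c c' ∧ low P n ℓ c' r' := by
  obtain ⟨i, hin, rfl, hi⟩ := hc
  have h1 := h.lip r r' hr hr' hrr
  have h2 := h.lip r' r hr' hr hrr.symm
  have h3 := h.pos r hr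
  have h4 := h.pos r' hr'
  have h5 := h.n1
  by_cases hlt : i < min (ℓ r') n
  · exact ⟨P (i + 1), h.adj i (by omega), i + 1, by omega, rfl, by omega⟩
  · refine ⟨P (i - 1), ?_, i - 1, by omega, rfl, by omega⟩
    have := h.adj (i - 1) (by omega)
    rw [show i - 1 + 1 = i by omega] at this
    exact this.symm

theorem Lev.up_step {T : Set V} {P : ℕ → V} {n : ℕ} {ℓ : V → ℕ} (h : Lev G T P n ℓ)
    {c r r' : V} (hc : up P n ℓ c r) (hr : r ∈ T) (hr' : r' ∈ T) (hrr : G.Adj r r') :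
    ∃ c', G.Adj c c' ∧ up P n ℓ c' r' := by
  obtain ⟨i, hin, rfl, hi⟩ := hc
  have h1 := h.lip r r' hr hr' hrr
  have h2 := h.lip r' r hr' hr hrr.symm
  have h3 := h.pos r hr
  have h4 := h.pos r' hr'
  have h5 := h.n1
  by_cases hlt : i ≤ min (ℓ r') n ∧ i < n
  · exact ⟨P (i + 1), h.adj i (by omega), i + 1, by omega, rfl, by omega⟩
  · refine ⟨P (i - 1), ?_, i - 1, by omega, rfl, by omega⟩
    have := h.adj (i - 1) (by omega)
    rw [show i - 1 + 1 = i by omega] at this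
    exact this.symm

theorem Lev.low_ent {T : Set V} {P : ℕ → V} {n : ℕ} {ℓ : V → ℕ} (h : Lev G T P n ℓ)
    {c r : V} (hc : low P n ℓ c r) (hr : r ∈ T) {j : ℕ} (hj : j ≤ n) (hrj : G.Adj r (P j))
    (hle : j ≤ ℓ r) : c = P j ∨ G.Adj c (P j) := by
  obtain ⟨i, hin, rfl, hi⟩ := hc
  have h1 := h.ent1 r hr j hj hrj
  have h3 := h.pos r hr
  have h5 := h.n1
  exact h.near hin hj (by omega) (by omega)

theorem Lev.up_ent {T : Set V} {P : ℕ → V} {n : ℕ} {ℓ : V → ℕ} (h : Lev G T P n ℓ)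
    {c r : V} (hc : up P n ℓ c r) (hr : r ∈ T) {j : ℕ} (hj : j ≤ n) (hrj : G.Adj r (P j))
    (hle : ℓ r ≤ j) : c = P j ∨ G.Adj c (P j) := by
  obtain ⟨i, hin, rfl, hi⟩ := hc
  have h1 := h.ent2 r hr j hj hrj
  have h3 := h.pos r hr
  have h5 := h.n1
  exact h.near hin hj (by omega) (by omega)

/-! ### Becoming a lower tracker -/

def rlow (G : SimpleGraph V) (P : ℕ → V) (n : ℕ) (ℓ : V → ℕ) (m : ℕ) (c r : V) : Prop :=
  low P n ℓ c r ∨ (∃ i, i ≤ n ∧ c = P i ∧ i < min (ℓ r) n ∧ n ≤ i + m) ∨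
    ∃ p : G.Walk c (P 0), p.length + n ≤ m

theorem Lev.rlow_zero {T : Set V} {P : ℕ → V} {n : ℕ} {ℓ : V → ℕ} (h : Lev G T P n ℓ)
    {c r : V} (hc : rlow G P n ℓ 0 c r) : low P n ℓ c r := by
  have h5 := h.n1
  rcases hc with hc | ⟨i, hi, rfl, h1, h2⟩ | ⟨p, hp⟩
  · exact hc
  · omega
  · omega

theorem Lev.rlow_mid {T : Set V} {P : ℕ → V} {n : ℕ} {ℓ : V → ℕ} (h : Lev G T P n ℓ)
    {m i : ℕ} {r r' : V} (hr : r ∈ T) (hr' : r' ∈ T) (hrr : G.Adj r r') (hi : i ≤ n)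
    (h1 : i < min (ℓ r) n) (h2 : n ≤ i + (m + 1)) :
    ∃ c', G.Adj (P i) c' ∧ rlow G P n ℓ m c' r' := by
  by_cases hlow : i + 1 = min (ℓ r) n
  · obtain ⟨c', h3, h4⟩ := h.low_step (c := P i) ⟨i, hi, rfl, Or.inr hlow⟩ hr hr' hrr
    exact ⟨c', h3, Or.inl h4⟩
  · have h3 := h.lip r' r hr' hr hrr.symm
    refine ⟨P (i + 1), h.adj i (by omega), ?_⟩
    by_cases heq : i + 1 = min (ℓ r') n
    · exact Or.inl ⟨i + 1, by omega, rfl, Or.inl heq⟩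
    · exact Or.inr (Or.inl ⟨i + 1, by omega, rfl, by omega, by omega⟩)

theorem Lev.rlow_step {T : Set V} {P : ℕ → V} {n : ℕ} {ℓ : V → ℕ} (h : Lev G T P n ℓ)
    {m : ℕ} {c r r' : V} (hc : rlow G P n ℓ (m + 1) c r) (hr : r ∈ T) (hr' : r' ∈ T)
    (hrr : G.Adj r r') : ∃ c', G.Adj c c' ∧ rlow G P n ℓ m c' r' := by
  have h5 := h.n1
  rcases hc with hc | ⟨i, hi, rfl, h1, h2⟩ | ⟨p, hp⟩
  · obtain ⟨c', h3, h4⟩ := h.low_step hc hr hr' hrr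
    exact ⟨c', h3, Or.inl h4⟩
  · exact h.rlow_mid hr hr' hrr hi h1 h2
  · have h6 := h.pos r hr
    generalize hx : P 0 = x at p
    cases p with
    | nil => rw [← hx]; exact h.rlow_mid hr hr' hrr (Nat.zero_le _) (by omega) (by simp at hp; omega)
    | cons hadj p' =>
      rw [SimpleGraph.Walk.length_cons] at hp
      subst hx
      exact ⟨_, hadj, Or.inr (Or.inr ⟨p', by omega⟩)⟩

theorem rlow_init (hconn : G.Connected) (P : ℕ → V) (n : ℕ) (ℓ : V → ℕ) (c r : V) :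
    ∃ m, rlow G P n ℓ m c r := by
  obtain ⟨p⟩ := hconn.preconnected c (P 0)
  exact ⟨_, Or.inr (Or.inr ⟨p, le_rfl⟩)⟩

/-! ### Becoming an upper tracker -/

def rup (G : SimpleGraph V) (P : ℕ → V) (n : ℕ) (ℓ : V → ℕ) (m : ℕ) (c r : V) : Prop :=
  up P n ℓ c r ∨ (∃ i, i ≤ n ∧ c = P i ∧ min (ℓ r) n < i ∧ i ≤ m) ∨
    ∃ p : G.Walk c (P n), p.length + n ≤ m

theorem Lev.rup_zero {T : Set V} {P : ℕ → V} {n : ℕ} {ℓ : V → ℕ} (h : Lev G T P n ℓ)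
    {c r : V} (hc : rup G P n ℓ 0 c r) : up P n ℓ c r := by
  have h5 := h.n1
  rcases hc with hc | ⟨i, hi, rfl, h1, h2⟩ | ⟨p, hp⟩
  · exact hc
  · omega
  · omega

theorem Lev.rup_mid {T : Set V} {P : ℕ → V} {n : ℕ} {ℓ : V → ℕ} (h : Lev G T P n ℓ)
    {m i : ℕ} {r r' : V} (hr : r ∈ T) (hr' : r' ∈ T) (hrr : G.Adj r r') (hi : i ≤ n)
    (h1 : min (ℓ r) n ≤ i) (h2 : i ≤ m + 1) :
    ∃ c', G.Adj (P i) c' ∧ rup G P n ℓ m c' r' := by
  by_cases hlow : i = min (ℓ r) n ∨ i = min (ℓ r) n + 1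
  · obtain ⟨c', h3, h4⟩ := h.up_step (c := P i) ⟨i, hi, rfl, by tauto⟩ hr hr' hrr
    exact ⟨c', h3, Or.inl h4⟩
  · have h3 := h.lip r r' hr hr' hrr
    refine ⟨P (i - 1), ?_, ?_⟩
    · have := h.adj (i - 1) (by omega)
      rw [show i - 1 + 1 = i by omega] at this
      exact this.symm
    · by_cases heq : i - 1 = min (ℓ r') n
      · exact Or.inl ⟨i - 1, by omega, rfl, Or.inl heq⟩
      · exact Or.inr (Or.inl ⟨i - 1, by omega, rfl, by omega, by omega⟩)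

theorem Lev.rup_step {T : Set V} {P : ℕ → V} {n : ℕ} {ℓ : V → ℕ} (h : Lev G T P n ℓ)
    {m : ℕ} {c r r' : V} (hc : rup G P n ℓ (m + 1) c r) (hr : r ∈ T) (hr' : r' ∈ T)
    (hrr : G.Adj r r') : ∃ c', G.Adj c c' ∧ rup G P n ℓ m c' r' := by
  have h5 := h.n1
  rcases hc with hc | ⟨i, hi, rfl, h1, h2⟩ | ⟨p, hp⟩
  · obtain ⟨c', h3, h4⟩ := h.up_step hc hr hr' hrr
    exact ⟨c', h3, Or.inl h4⟩
  · exact h.rup_mid hr hr' hrr hi h1.le h2
  · have h6 := h.pos r hr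
    generalize hx : P n = x at p
    cases p with
    | nil => rw [← hx]; exact h.rup_mid hr hr' hrr le_rfl (by omega) (by simp at hp; omega)
    | cons hadj p' =>
      rw [SimpleGraph.Walk.length_cons] at hp
      subst hx
      exact ⟨_, hadj, Or.inr (Or.inr ⟨p', by omega⟩)⟩

theorem rup_init (hconn : G.Connected) (P : ℕ → V) (n : ℕ) (ℓ : V → ℕ) (c r : V) :
    ∃ m, rup G P n ℓ m c r := by
  obtain ⟨p⟩ := hconn.preconnected c (P n)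
  exact ⟨_, Or.inr (Or.inr ⟨p, le_rfl⟩)⟩

/-! ### Moving an upper tracker to another path -/

def rtr (P Q : ℕ → V) (n b : ℕ) (ℓ : V → ℕ) (m : ℕ) (c r : V) : Prop :=
  up Q n ℓ c r ∨ (∃ i, i ≤ b ∧ c = Q i ∧ min (ℓ r) n < i ∧ i ≤ m) ∨
    ∃ i, i < b ∧ c = P i ∧ (min (ℓ r) n ≤ i ∨ (min (ℓ r) n = n ∧ i + 1 = n)) ∧ (b - i) + b ≤ m

theorem rtr_init {P Q : ℕ → V} {n b : ℕ} {ℓ : V → ℕ} (hPQ : ∀ j, b ≤ j → Q j = P j)
    {c r : V} (hc : up P n ℓ c r) : rtr P Q n b ℓ (2 * b) c r := by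
  obtain ⟨i, hin, rfl, hi⟩ := hc
  by_cases hb : b ≤ i
  · exact Or.inl ⟨i, hin, (hPQ i hb).symm, hi⟩
  · exact Or.inr (Or.inr ⟨i, by omega, rfl, by omega, by omega⟩)

theorem rtr_zero {P Q : ℕ → V} {n b : ℕ} {ℓ : V → ℕ}
    {c r : V} (hc : rtr P Q n b ℓ 0 c r) : up Q n ℓ c r := by
  rcases hc with hc | ⟨i, hi, rfl, h1, h2⟩ | ⟨i, hi, rfl, h1, h2⟩
  · exact hc
  · omega
  · omega

theorem rtr_step {T : Set V} {P Q : ℕ → V} {n b : ℕ} {ℓ : V → ℕ} (h : Lev G T P n ℓ)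
    (hQ : Lev G T Q n ℓ) (hb : b ≤ n) (hPQ : ∀ j, b ≤ j → Q j = P j)
    {m : ℕ} {c r r' : V} (hc : rtr P Q n b ℓ (m + 1) c r) (hr : r ∈ T) (hr' : r' ∈ T)
    (hrr : G.Adj r r') : ∃ c', G.Adj c c' ∧ rtr P Q n b ℓ m c' r' := by
  have h1 := h.lip r r' hr hr' hrr
  have h2 := h.lip r' r hr' hr hrr.symm
  have h3 := h.pos r hr
  have h4 := h.pos r' hr'
  have h5 := h.n1
  rcases hc with hc | ⟨i, hi, rfl, h6, h7⟩ | ⟨i, hi, rfl, h6, h7⟩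
  · obtain ⟨c', h8, h9⟩ := hQ.up_step hc hr hr' hrr
    exact ⟨c', h8, Or.inl h9⟩
  · by_cases hlow : i = min (ℓ r) n + 1
    · obtain ⟨c', h8, h9⟩ := hQ.up_step (c := Q i) ⟨i, by omega, rfl, by tauto⟩ hr hr' hrr
      exact ⟨c', h8, Or.inl h9⟩
    · refine ⟨Q (i - 1), ?_, ?_⟩
      · have := hQ.adj (i - 1) (by omega)
        rw [show i - 1 + 1 = i by omega] at this
        exact this.symm
      · by_cases heq : i - 1 = min (ℓ r') n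
        · exact Or.inl ⟨i - 1, by omega, rfl, Or.inl heq⟩
        · exact Or.inr (Or.inl ⟨i - 1, by omega, rfl, by omega, by omega⟩)
  · refine ⟨P (i + 1), h.adj i (by omega), ?_⟩
    by_cases hib : i + 1 < b
    · exact Or.inr (Or.inr ⟨i + 1, hib, rfl, by omega, by omega⟩)
    · have hib' : i + 1 = b := by omega
      rw [← hPQ (i + 1) (by omega)]
      by_cases heq : i + 1 = min (ℓ r') n ∨ i + 1 = min (ℓ r') n + 1
      · exact Or.inl ⟨i + 1, by omega, rfl, by tauto⟩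
      · exact Or.inr (Or.inl ⟨i + 1, by omega, rfl, by omega, by omega⟩)

/-- during the move all ascending entries at indices at least `b` are punished -/
theorem rtr_ent {T : Set V} {P Q : ℕ → V} {n b : ℕ} {ℓ : V → ℕ} (h : Lev G T P n ℓ)
    (hQ : Lev G T Q n ℓ) (hb : b ≤ n) (hPQ : ∀ j, b ≤ j → Q j = P j)
    {m : ℕ} {c r : V} (hc : rtr P Q n b ℓ m c r) (hr : r ∈ T) {j : ℕ} (hj : j ≤ n) (hbj : b ≤ j)
    (hrj : G.Adj r (P j)) (hle : ℓ r + 1 = j) : c = P j ∨ G.Adj c (P j) := by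
  have h3 := h.pos r hr
  rcases hc with hc | ⟨i, hi, rfl, h6, h7⟩ | ⟨i, hi, rfl, h6, h7⟩
  · rw [← hPQ j hbj]
    exact hQ.up_ent hc hr hj (by rwa [hPQ j hbj]) (by omega)
  · have : i = j := by omega
    subst this
    exact Or.inl (hPQ i hbj)
  · exact h.near (by omega) hj (by omega) (by omega)

end Pool.Agent.Y649.FA
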